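import Pool.Agent.H81.RW.Defs
import Pool.Agent.H81.RW.Hit

/-!
# THEOREM AC (MP_8f2e1c, think 2046 / 2052): the interface between the cut process and the topological dynamics

`PQ f N Cr k O O₁ R`: `O` is open, connected, without holes, bounded, `f^[k]` maps `O` to `O₁`, the frontier to the frontier, the orbits of length `k` are in `N`, at most `R` critical times (times `i` at which `f` is not injective on `f^[i] '' O`; the argument `Cr` is not used).
`PST`: persistence: the time of such a pull back around a point of `P` is bounded if the frontier of `O₁` has distance `≥ s` from `P` (from PartB).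
`Lev`: a level: `u` is unimodal at the critical value `v`, small; for all `x ∈ P` with first entrance time `n` (`Ent`: first time with `f^[n] x ∈ E`, `u (f^[n + 1] x) = 1`): either all points `p ∈ P` with `u p = 1` have the same entrance time `k < n`,
or there are a unimodal function `w` at `x`, of length `≤ L`, small, and a domain `O ∋ x` on which `w = 1`, which is a pull back of a domain `O₁` near `v` with at most `R` critical times (times `i` at which `f` is not injective on `f^[i] '' O`; the argument `Cr` is not used).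
`Stay`: the domain `O` at `f^[k] x` is pulled back to `x` without critical times if no critical point near `f^[i] x` enters the support of `w`.
-/

set_option autoImplicit false

open Filter Topology Metric Set MeasureTheory

namespace Pool.Agent.H81.AC

open Pool.Agent.H56.TH Pool.Agent.H81.RW

/-- `O` is a pull back of `O₁` by `f^[k]` with at most `R` critical times -/
structure PQ (f : ℂ → ℂ) (N Cr : Set ℂ) (k : ℕ) (O O₁ : Set ℂ) (R : ℕ) : Prop where
  op : IsOpen O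
  co : IsPreconnected O
  fu : Full O
  bd : Bornology.IsBounded O
  Nn : ∀ y ∈ closure O, ∀ j < k, f^[j] y ∈ N
  mp : ∀ y ∈ O, f^[k] y ∈ O₁
  fr : ∀ y ∈ frontier O, f^[k] y ∈ frontier O₁
  ct : {i | i < k ∧ ¬ InjOn f (f^[i] '' O)}.ncard ≤ R

/-- persistence on `P` -/
def PST (f : ℂ → ℂ) (U P Cr : Set ℂ) : Prop :=
  ∀ (s : ℝ) (R : ℕ), 0 < s → ∃ T : ℕ, ∀ x ∈ P, ∀ (m : ℕ) (O O₁ : Set ℂ), PQ f U Cr m O O₁ R → x ∈ O →
    (∀ y ∈ frontier O₁, ∀ p ∈ P, s ≤ ‖y - p‖) → m ≤ T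

/-- a level of size `κ` at the critical value `v` (`E`: the chart of the critical point) -/
def Lev (f : ℂ → ℂ) (U P Cr E : Set ℂ) (ρ : ℂ → ENNReal) (v : ℂ) (R : ℕ) (L κ : ℝ) : Prop :=
  ∃ (u : ℂ → ℝ) (s : ℝ), 0 < s ∧ UM P u ∧ u v = 1 ∧ (∀ y, 0 < u y → ‖y - v‖ < κ) ∧
    ∀ x ∈ P, ∀ n : ℕ, Ent f E u x n → (∃ k < n, ∀ p ∈ P, u p = 1 → Ent f E u p k) ∨
      ∃ (w : ℂ → ℝ) (m : ℕ) (O O₁ : Set ℂ), UM P w ∧ w x = 1 ∧ (∀ y, 0 < w y → ‖y - x‖ < κ) ∧ ell ρ w ≤ ENNReal.ofReal L ∧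
        1 ≤ m ∧ m ≤ n + 1 ∧ PQ f U Cr m O O₁ R ∧ x ∈ O ∧ (∀ y ∈ O, w y = 1) ∧ O₁ ⊆ ball v κ ∧
        ∀ y ∈ frontier O₁, ∀ p ∈ P, s ≤ ‖y - p‖

/-- univalent pull back of a window along an orbit in `P` -/
def Stay (f : ℂ → ℂ) (U P Cr : Set ℂ) (ρ : ℂ → ENNReal) (L κ κ' : ℝ) : Prop :=
  ∀ (w : ℂ → ℝ) (x : ℂ) (k : ℕ), UM P w → ell ρ w ≤ ENNReal.ofReal L → x ∈ P → w (f^[k] x) = 1 →
    (∀ y, 0 < w y → ‖y - f^[k] x‖ < κ') → (∀ i < k, ∀ c ∈ Cr, ‖f^[i] x - c‖ < κ → w (f^[k - i] c) = 0) →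
    ∀ (m : ℕ) (O O₁ : Set ℂ) (R : ℕ), PQ f U Cr m O O₁ R → f^[k] x ∈ O → (∀ y ∈ O, w y = 1) →
      ∃ O' : Set ℂ, x ∈ O' ∧ PQ f U Cr (m + k) O' O₁ R

end Pool.Agent.H81.AC
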