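import Pool.Agent.H81.AC.Smw
import Pool.Agent.H66.DIM.If

/-!
# Module Cvc (THEOREM AC): clusters at the critical value `v` with the minimal length

`ClV P v`: clusters of `P` around `v` at arbitrarily small scales. `clv`: from the near minimal Lipschitz functions of `smooth` (`u` is `0` or `1` on `P`, Lipschitz constant `C / r`, content radius `r`).
`clu_m`: if `v` is in a piece `M` of `P` (`M` compact, `P \ M` closed) then `M` has clusters at arbitrarily small scales.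
-/

set_option autoImplicit false

open Filter Topology Metric Set MeasureTheory

namespace Pool.Agent.H81.AC

open Pool.Agent.H81.RW

open Pool.Agent.H56.TH

/-- clusters around `v` at arbitrarily small scales -/
def ClV (P : Set ℂ) (v : ℂ) : Prop :=
  ∃ ε : ℝ, 0 < ε ∧ ∀ r₁ : ℝ, 0 < r₁ → ∃ r : ℝ, 0 < r ∧ r < r₁ ∧ ∃ A ⊆ P, v ∈ A ∧
    (∀ x ∈ A, ∀ y ∈ A, ‖x - y‖ ≤ r) ∧ ∀ x ∈ A, ∀ y ∈ P, y ∉ A → ε * r ≤ ‖x - y‖

theorem clv {f : ℂ → ℂ} {N J P Cr : Set ℂ} {η : ℂ → ℂ → ℂ} {r₀ δ : ℝ} {ρ : ℂ → ENNReal} (h : WW f N J P Cr η r₀ δ ρ)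
    {M r₁ : ℝ} (hr : RG P M r₁) {v : ℂ} (hvP : v ∈ P) {Λ : ℝ} (hΛ : Lm P ρ v Λ) : ClV P v := by
  obtain ⟨C, hC, hs⟩ := smooth h hr hvP hΛ one_pos
  have hC0 : 0 < C := by linarith
  refine ⟨1 / (2 * C), by positivity, fun r₂ hr₂ => ?_⟩
  obtain ⟨u, r, hr0, hCr, hum, huv, hlip, -, hcr, -⟩ := hs (r₂ / 2) (half_pos hr₂)
  have hrC : r ≤ C * r := le_mul_of_one_le_left hr0.le hC
  refine ⟨2 * r, by positivity, by linarith, P ∩ {x | u x = 1}, inter_subset_left, ⟨hvP, huv⟩, ?_, ?_⟩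
  · rintro x ⟨hx, hx1⟩ y ⟨hy, hy1⟩
    have h1 := hcr.2 x hx hx1
    have h2 := hcr.2 y hy hy1
    have h3 : x - y = (x - v) - (y - v) := by ring
    rw [h3]
    exact (norm_sub_le _ _).trans (by linarith)
  · rintro x ⟨hx, hx1⟩ y hy hyA
    have h1 : u y = 0 := (hum.va y hy).resolve_right (fun h2 => hyA ⟨hy, h2⟩)
    have h2 := hlip x y
    rw [show u x = 1 from hx1, h1, sub_zero, abs_one, div_mul_eq_mul_div, le_div_iff₀ hr0, one_mul] at h2
    have h3 : 1 / (2 * C) * (2 * r) = r / C := by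
      field_simp
    rw [h3, div_le_iff₀ hC0, mul_comm]
    exact h2

theorem clu_m {P M : Set ℂ} {v : ℂ} (h : ClV P v) (hM : IsCompact M) (hMP : M ⊆ P) (hoff : IsClosed (P \ M)) (hv : v ∈ M) :
    Pool.Agent.H66.DIM.Clu M := by
  obtain ⟨ε, hε, h1⟩ := h
  obtain ⟨e, he, hsub⟩ := hM.exists_thickening_subset_open hoff.isOpen_compl (fun x hx hx' => hx'.2 hx)
  refine ⟨ε, hε, fun r₁ hr₁ => ?_⟩
  obtain ⟨r, hr0, hr1, A, hAP, hvA, hd, hg⟩ := h1 (min r₁ e) (lt_min hr₁ he)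
  have hAM : A ⊆ M := by
    intro x hx
    by_contra hxM
    refine hsub ((mem_thickening_iff).2 ⟨v, hv, ?_⟩) ⟨hAP hx, hxM⟩
    rw [dist_eq_norm]
    exact (hd x hx v hvA).trans_lt (hr1.trans_le (min_le_right _ _))
  exact ⟨r, hr0, hr1.trans_le (min_le_left _ _), A, hAM, ⟨v, hvA⟩, hd, fun x hx y hy hyA => hg x hx y (hMP hy) hyA⟩

end Pool.Agent.H81.AC
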