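import Pool.Agent.H47.LG.Psg
import Pool.Agent.H47.LG.Uc
import Pool.Agent.H81.AC.Wd
import Pool.Agent.H64.SPG.Ns
import Pool.Agent.H81.RW.Rhm
import Pool.Agent.H81.RW.Rhl

/-!
# Module Psv (THEOREM AC): from the planar setting `PG` for the whole set `P` (the closure of the orbits of the critical values) to the setting `WW` of this folder

Copy of `H47/LV/Psw`: the metric is `rh`, `N = U`.
-/

set_option autoImplicit false

open Filter Topology Metric Set MeasureTheory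

namespace Pool.Agent.H81.AC

open Pool.Agent.H81.RW (rh_me rh_lb rh_lg UM)
open Pool.Agent.H56.TH Pool.Agent.H66.DIM
open Pool.Agent.H66.SP (PG)
open Pool.Agent.H47.LG (fr_pg pg_nc uc)

variable {f : ℂ → ℂ} {U J P Cr : Set ℂ} {δ : ℝ} {η : ℂ → ℂ → ℂ} {r₀ : ℝ}

theorem wwv_pg (h : PG f U J P Cr δ η r₀) (hCP : Cr ⊆ P) (hn : Cr.Nonempty)
    (hmn : P ⊆ closure {y | ∃ c ∈ Cr, ∃ n : ℕ, f^[n] (f c) = y}) :
    ∃ δ' : ℝ, 0 < δ' ∧ δ' ≤ δ ∧ WW f U J P Cr η r₀ δ' (rh f U J P δ) := by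
  obtain ⟨δ₂, hδ₂, -, hloc⟩ := h.loc
  have hF := fr_pg h
  have hPc : IsCompact P := h.Jc.of_isClosed_subset h.Pc h.PJ
  obtain ⟨δ', hd⟩ : ∃ δ', δ' = min δ₂ (δ / 2) := ⟨_, rfl⟩
  have hδ0 := h.hδ
  have h0 : 0 < δ' := by
    rw [hd]
    exact lt_min hδ₂ (by linarith)
  have h2 : δ' ≤ δ₂ := by rw [hd]; exact min_le_left _ _
  have h3 : δ' ≤ δ / 2 := by rw [hd]; exact min_le_right _ _
  have h3' : δ' ≤ δ := by linarith
  have htJ : thickening δ' J ⊆ thickening δ J := thickening_mono h3' J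
  have htM : thickening δ' P ⊆ thickening δ J := (thickening_mono h3' P).trans (thickening_subset_of_subset δ h.PJ)
  obtain ⟨R, hR⟩ : ∃ R : ℝ, ∀ x ∈ J, ‖x‖ ≤ R := h.Jc.isBounded.exists_norm_le
  refine ⟨δ', h0, h3', ?_⟩
  exact {
    No := h.Uo
    fd := h.fd
    Jc := h.Jc
    Jf := h.Jf
    ns := by
      intro t ht
      obtain ⟨ε, hε, hns⟩ := Pool.Agent.H64.SPG.pg_ns h (R + 1) ht
      refine ⟨ε, hε, fun q k c hq => ?_⟩
      have hq1 : ‖q‖ ≤ R + 1 ∧ (∀ j < k, f^[j] q ∈ U) ∧ f^[k] q ∈ J := by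
        rcases hq with hq | ⟨⟨x, hx, hqx⟩, h4, h5⟩
        · exact ⟨(hR q hq).trans (by linarith), fun j _ => h.JU (Pool.Agent.H66.SP.J_it h j hq),
            Pool.Agent.H66.SP.J_it h k hq⟩
        · refine ⟨?_, h4, h.PJ h5⟩
          rw [mem_ball, dist_eq_norm] at hqx
          have h6 : ‖q‖ ≤ ‖q - x‖ + ‖x‖ := by
            have h7 : q = (q - x) + x := by ring
            calc ‖q‖ = ‖(q - x) + x‖ := by rw [← h7]
              _ ≤ ‖q - x‖ + ‖x‖ := norm_add_le _ _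
          linarith [hR x hx]
      exact hns q k c hq1.1 hq1.2.1 hq1.2.2
    uc := uc h.Uo h.fd h.Jc h.JU (fun z hz => pg_nc h hz) one_pos
    Pc := hPc
    PJ := h.PJ
    PN := h.PJ.trans h.JU
    Pf := h.Pf
    mnv := hmn
    Cf := h.Cf
    Cn := hn
    CP := hCP
    hδ := h0
    hr := h.hρ
    ηd := fun c hc => (h.nf c hc).1
    ηi := fun c hc => (h.nf c hc).2.1
    η0 := fun c hc => (h.nf c hc).2.2.1
    ηv := fun c hc => (h.nf c hc).2.2.2
    loc := by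
      intro z hz hzJ _
      have hsub : ball (f z) δ' ⊆ ball (f z) δ₂ := ball_subset_ball h2
      rcases hloc (f z) (h.Jf z hzJ) z hz (mem_ball_self hδ₂) with ⟨g, hg, hgz, hgu⟩ | ⟨c, hc, hcs, hcz⟩
      · exact Or.inl ⟨g, hg.mono hsub, hgz, fun u hu => hgu u (hsub hu)⟩
      · exact Or.inr ⟨c, hc, hsub.trans hcs, hcz⟩
    br := by
      intro k w z r hb hP hN hk
      obtain ⟨G, hG1, hG2, hG3⟩ := hF.br k w z r (hb.trans htM) (fun u hu huP =>
        (Set.disjoint_left.1 hP) hu huP) ⟨hN, htM (hb hk)⟩ hk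
      exact ⟨G, hG1, hG2, fun u hu => ⟨(hG3 u hu).1.1, (hG3 u hu).2⟩⟩
    me := rh_me hF
    lb := fun k x q hx _ hqP hd' hder => rh_lb hF hx hqP (hd'.trans_le h3) hder
    ct := fun x hx hfx hder => rh_ct hF hx (htJ hfx) hder
    up := fun w d hd' hb hP => rh_up hF hd' (hb.trans htM) hP
    lg := by
      obtain ⟨K, hK1, hK⟩ := rh_lg hF
      exact ⟨K, hK1, fun x y d hd' hb hP hxy => hK x y d hd' (hb.trans htM) hP hxy⟩ }

/-- the same for a part `P0` of `P` which contains all the critical points -/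
theorem wwv_p0 {P0 : Set ℂ} (h : PG f U J P Cr δ η r₀) (hcl : IsClosed P0) (hsub : P0 ⊆ P) (hinv : ∀ x ∈ P0, f x ∈ P0)
    (hoff : IsClosed (P \ P0)) (hCP : Cr ⊆ P0) (hn : Cr.Nonempty)
    (hmn : P0 ⊆ closure {y | ∃ c ∈ Cr, ∃ n : ℕ, f^[n] (f c) = y}) :
    ∃ δ' : ℝ, 0 < δ' ∧ δ' ≤ δ ∧ WW f U J P0 Cr η r₀ δ' (rh f U J P δ) := by
  obtain ⟨δ₂, hδ₂, -, hloc⟩ := h.loc
  have hF := fr_pg h
  have hne : P0.Nonempty := hn.mono hCP
  have hMJ : P0 ⊆ J := hsub.trans h.PJ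
  have hMc : IsCompact P0 := h.Jc.of_isClosed_subset hcl hMJ
  obtain ⟨δ₁, hδ₁, hoff'⟩ : ∃ δ' : ℝ, 0 < δ' ∧ ∀ x ∈ P, infDist x P0 < δ' → x ∈ P0 := by
    obtain ⟨δ', hδ', hsb⟩ := hMc.exists_thickening_subset_open hoff.isOpen_compl (fun x hx hx' => hx'.2 hx)
    refine ⟨δ', hδ', fun x hx hxd => ?_⟩
    by_contra hxM
    exact hsb ((mem_thickening_iff_infDist_lt hne).2 hxd) ⟨hx, hxM⟩
  obtain ⟨δ', hd⟩ : ∃ δ', δ' = min (min δ₁ δ₂) (δ / 2) := ⟨_, rfl⟩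
  have hδ0 := h.hδ
  have h0 : 0 < δ' := by
    rw [hd]
    exact lt_min (lt_min hδ₁ hδ₂) (by linarith)
  have h1 : δ' ≤ δ₁ := by rw [hd]; exact (min_le_left _ _).trans (min_le_left _ _)
  have h2 : δ' ≤ δ₂ := by rw [hd]; exact (min_le_left _ _).trans (min_le_right _ _)
  have h3 : δ' ≤ δ / 2 := by rw [hd]; exact min_le_right _ _
  have h3' : δ' ≤ δ := by linarith
  have htJ : thickening δ' J ⊆ thickening δ J := thickening_mono h3' J
  have htM : thickening δ' P0 ⊆ thickening δ J := (thickening_mono h3' P0).trans (thickening_subset_of_subset δ hMJ)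
  have hdis : ∀ S : Set ℂ, S ⊆ thickening δ' P0 → Disjoint S P0 → Disjoint S P := by
    intro S hS hSM
    rw [Set.disjoint_left] at hSM ⊢
    intro x hx hxP
    refine hSM hx (hoff' x hxP ?_)
    have h4 := hS hx
    rw [mem_thickening_iff_infDist_lt hne] at h4
    exact h4.trans_le h1
  obtain ⟨R, hR⟩ : ∃ R : ℝ, ∀ x ∈ J, ‖x‖ ≤ R := h.Jc.isBounded.exists_norm_le
  refine ⟨δ', h0, h3', ?_⟩
  exact {
    No := h.Uo
    fd := h.fd
    Jc := h.Jc
    Jf := h.Jf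
    ns := by
      intro t ht
      obtain ⟨ε, hε, hns⟩ := Pool.Agent.H64.SPG.pg_ns h (R + 1) ht
      refine ⟨ε, hε, fun q k c hq => ?_⟩
      have hq1 : ‖q‖ ≤ R + 1 ∧ (∀ j < k, f^[j] q ∈ U) ∧ f^[k] q ∈ J := by
        rcases hq with hq | ⟨⟨x, hx, hqx⟩, h4, h5⟩
        · exact ⟨(hR q hq).trans (by linarith), fun j _ => h.JU (Pool.Agent.H66.SP.J_it h j hq),
            Pool.Agent.H66.SP.J_it h k hq⟩
        · refine ⟨?_, h4, hMJ h5⟩
          rw [mem_ball, dist_eq_norm] at hqx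
          have h6 : ‖q‖ ≤ ‖q - x‖ + ‖x‖ := by
            have h7 : q = (q - x) + x := by ring
            calc ‖q‖ = ‖(q - x) + x‖ := by rw [← h7]
              _ ≤ ‖q - x‖ + ‖x‖ := norm_add_le _ _
          linarith [hR x hx]
      exact hns q k c hq1.1 hq1.2.1 hq1.2.2
    uc := uc h.Uo h.fd h.Jc h.JU (fun z hz => pg_nc h hz) one_pos
    Pc := hMc
    PJ := hMJ
    PN := hMJ.trans h.JU
    Pf := hinv
    mnv := hmn
    Cf := h.Cf
    Cn := hn
    CP := hCP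
    hδ := h0
    hr := h.hρ
    ηd := fun c hc => (h.nf c hc).1
    ηi := fun c hc => (h.nf c hc).2.1
    η0 := fun c hc => (h.nf c hc).2.2.1
    ηv := fun c hc => (h.nf c hc).2.2.2
    loc := by
      intro z hz hzJ _
      have hsub' : ball (f z) δ' ⊆ ball (f z) δ₂ := ball_subset_ball h2
      rcases hloc (f z) (h.Jf z hzJ) z hz (mem_ball_self hδ₂) with ⟨g, hg, hgz, hgu⟩ | ⟨c, hc, hcs, hcz⟩
      · exact Or.inl ⟨g, hg.mono hsub', hgz, fun u hu => hgu u (hsub' hu)⟩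
      · exact Or.inr ⟨c, hc, hsub'.trans hcs, hcz⟩
    br := by
      intro k w z r hb hP hN hk
      obtain ⟨G, hG1, hG2, hG3⟩ := hF.br k w z r (hb.trans htM) (fun u hu huP =>
        (Set.disjoint_left.1 (hdis _ hb hP)) hu huP) ⟨hN, htM (hb hk)⟩ hk
      exact ⟨G, hG1, hG2, fun u hu => ⟨(hG3 u hu).1.1, (hG3 u hu).2⟩⟩
    me := rh_me hF
    lb := by
      intro k x q hx _ hqP hd' hder
      refine rh_lb hF hx (hsub hqP) ?_ hder
      exact (infDist_le_infDist_of_subset hsub hne).trans_lt (hd'.trans_le h3)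
    ct := fun x hx hfx hder => rh_ct hF hx (htJ hfx) hder
    up := fun w d hd' hb hP => rh_up hF hd' (hb.trans htM) (hdis _ hb hP)
    lg := by
      obtain ⟨K, hK1, hK⟩ := rh_lg hF
      exact ⟨K, hK1, fun x y d hd' hb hP hxy => hK x y d hd' (hb.trans htM) (hdis _ hb hP) hxy⟩ }

end Pool.Agent.H81.AC
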