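import Pool.Agent.H81.AC.Defs
import Pool.Agent.H81.AC.Pbk
import Pool.Agent.H81.RW.Crit

/-!
# Module Po (AC): PULL BACKS OF DOMAINS WITH A BOUNDED NUMBER OF CRITICAL TIMES

`pq_zero`, `pq_mono`, `pq_pl` (univalent pull back: no new critical times), `pq_cr` (critical pull back: one more). Proofs as in H81/RW/Po without the area.
-/

set_option autoImplicit false

open Filter Topology Metric Set MeasureTheory

namespace Pool.Agent.H81.AC

open Pool.Agent.H81.RW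

open Pool.Agent.H56.TH

variable {f : ℂ → ℂ} {N J P Cr : Set ℂ} {η : ℂ → ℂ → ℂ} {r₀ δ : ℝ} {ρ : ℂ → ENNReal}

theorem pq_zero {O : Set ℂ} (h1 : IsOpen O) (h2 : IsPreconnected O) (h3 : Full O) (h4 : Bornology.IsBounded O) :
    PQ f N Cr 0 O O 0 := by
  refine ⟨h1, h2, h3, h4, fun y _ j hj => absurd hj (Nat.not_lt_zero j), fun y hy => hy, fun y hy => hy, ?_⟩
  have h5 : {i | i < 0 ∧ ¬ InjOn f (f^[i] '' O)} = ∅ := by
    ext i
    simp
  rw [h5, Set.ncard_empty]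

theorem pq_mono {k : ℕ} {O O₁ : Set ℂ} {R R' : ℕ} (h : PQ f N Cr k O O₁ R) (hR : R ≤ R') : PQ f N Cr k O O₁ R' :=
  ⟨h.op, h.co, h.fu, h.bd, h.Nn, h.mp, h.fr, h.ct.trans hR⟩

private theorem ct_fin {k : ℕ} {O : Set ℂ} : {i | i < k ∧ ¬ InjOn f (f^[i] '' O)}.Finite :=
  (Set.finite_lt_nat k).subset fun _ hi => hi.1

theorem pl_inj {w : ℂ → ℝ} {a κ : ℝ} {x : ℂ} {k : ℕ} {b : ℝ} {W : Set ℂ}
    (hP : PL f N w a κ x k b W) {i : ℕ} (hi : i < k) : InjOn f (f^[i] '' W) := by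
  rintro _ ⟨y, hy, rfl⟩ _ ⟨z, hz, rfl⟩ he
  have h1 : f^[k] y = f^[k] z := by
    have h2 : ∀ u : ℂ, f^[k] u = f^[k - (i + 1)] (f (f^[i] u)) := by
      intro u
      rw [← Function.iterate_succ_apply' f i u, ← Function.iterate_add_apply]
      congr 1
      omega
    rw [h2 y, h2 z, he]
  rw [hP.bh.inj hy hz h1]

theorem pq_pl (h : WW f N J P Cr η r₀ δ ρ) {w : ℂ → ℝ} (hw : UM P w) {a κ : ℝ} (ha : a < 1) {x : ℂ} {k : ℕ} {b : ℝ} {W : Set ℂ}
    (hP : PL f N w a κ x k b W) {m : ℕ} {O O₁ : Set ℂ} {R : ℕ} (hO : PQ f N Cr m O O₁ R) (hOw : ∀ y ∈ O, w y = 1)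
    (hx : f^[k] x ∈ O) :
    PQ f N Cr (m + k) (W ∩ f^[k] ⁻¹' O) O₁ R ∧ x ∈ W ∩ f^[k] ⁻¹' O ∧
      ∀ y ∈ W ∩ f^[k] ⁻¹' O, pb (f^[k]) W (trc a 1 w) y = 1 := by
  have hwc : Continuous w := ul_cont (ul_um hw)
  have hb1 : b < 1 := hP.ba.trans ha
  have hcl1 : closure O ⊆ {y | w y = 1} :=
    closure_minimal (fun y hy => hOw y hy) (isClosed_eq hwc continuous_const)
  have hclD : closure O ⊆ {y | b < w y} := fun y hy => by
    have h1 : w y = 1 := hcl1 hy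
    show b < w y
    rw [h1]
    exact hb1
  have hOD : O ⊆ {y | b < w y} := subset_closure.trans hclD
  have hK : IsCompact (W ∩ f^[k] ⁻¹' closure O) := bh_cpt hP.bh hclD hO.bd.isCompact_closure
  have hsub : W ∩ f^[k] ⁻¹' O ⊆ W ∩ f^[k] ⁻¹' closure O := fun y hy => ⟨hy.1, subset_closure hy.2⟩
  have hcl : closure (W ∩ f^[k] ⁻¹' O) ⊆ W ∩ f^[k] ⁻¹' closure O := closure_minimal hsub hK.isClosed
  have hop : IsOpen (W ∩ f^[k] ⁻¹' O) := hP.bh.fd.continuousOn.isOpen_inter_preimage hP.bh.Wo hO.op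
  refine ⟨⟨hop, bh_pre hP.bh hOD hO.co, hP.bh.fu O hOD hO.fu, hK.isBounded.subset hsub, ?_, ?_, ?_, ?_⟩, ⟨hP.xW, hx⟩, ?_⟩
  · intro y hy j hj
    obtain ⟨h1, h2⟩ := hcl hy
    rcases Nat.lt_or_ge j k with h3 | h3
    · exact hP.Nn y h1 j h3
    · have h4 := hO.Nn _ h2 (j - k) (by omega)
      rw [← Function.iterate_add_apply] at h4
      rwa [show j - k + k = j by omega] at h4
  · intro y hy
    rw [Function.iterate_add_apply]
    exact hO.mp _ hy.2
  · intro y hy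
    rw [hop.frontier_eq] at hy
    obtain ⟨h1, h2⟩ := hcl hy.1
    rw [Function.iterate_add_apply]
    refine hO.fr _ ?_
    rw [hO.op.frontier_eq]
    exact ⟨h2, fun h3 => hy.2 ⟨h1, h3⟩⟩
  · refine le_trans ?_ hO.ct
    have h1 : {i | i < m + k ∧ ¬ InjOn f (f^[i] '' (W ∩ f^[k] ⁻¹' O))} ⊆
        (fun i => i + k) '' {i | i < m ∧ ¬ InjOn f (f^[i] '' O)} := by
      rintro i ⟨hi, hni⟩
      rcases Nat.lt_or_ge i k with h3 | h3
      · exact absurd ((pl_inj hP h3).mono (image_mono inter_subset_left)) hni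
      · refine ⟨i - k, ⟨by omega, fun hinj => hni (hinj.mono ?_)⟩, by show i - k + k = i; omega⟩
        rintro _ ⟨y, hy, rfl⟩
        refine ⟨f^[k] y, hy.2, ?_⟩
        rw [← Function.iterate_add_apply, show i - k + k = i by omega]
    exact (Set.ncard_le_ncard h1 (ct_fin.image _)).trans (Set.ncard_image_le ct_fin)
  · intro y hy
    rw [pb_on hy.1]
    exact trc_one ha (hOw _ hy.2).ge

private theorem po_io {g : ℂ → ℂ} {y : ℂ} {r : ℝ} (hg : DifferentiableOn ℂ g (ball y r)) (hi : InjOn g (ball y r))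
    {D : Set ℂ} (hD : IsOpen D) (hDb : D ⊆ ball y r) : IsOpen (g '' D) :=
  Pool.Agent.H39.HO.inj_open isOpen_ball hg hi hDb hD

theorem pq_cr (h : WW f N J P Cr η r₀ δ ρ) {a : ℂ} (ha : a ∈ Cr) {w : ℂ → ℝ} (hw : UM P w)
    (hs : tsupport w ⊆ ball (f a) (r₀ ^ 2)) {m : ℕ} {O O₁ : Set ℂ} {R : ℕ} (hO : PQ f N Cr m O O₁ R)
    (hOw : ∀ y ∈ O, w y = 1) {x : ℂ} (hx : x ∈ η a '' ball 0 r₀) (hfx : f x ∈ O) :
    ∃ O' : Set ℂ, PQ f N Cr (m + 1) O' O₁ (R + 1) ∧ x ∈ O' ∧ O' ⊆ η a '' ball 0 r₀ ∩ f ⁻¹' O := by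
  have hwc : Continuous w := ul_cont (ul_um hw)
  have hr := h.hr
  have hηd := h.ηd a ha
  have hηi := h.ηi a ha
  have he := h.ηv a ha
  have hcl1 : closure O ⊆ {y | w y = 1} :=
    closure_minimal (fun y hy => hOw y hy) (isClosed_eq hwc continuous_const)
  have hclb : closure O ⊆ ball (f a) (r₀ ^ 2) := fun y hy => hs (subset_tsupport _ (by
    have h1 : w y = 1 := hcl1 hy
    rw [Function.mem_support, h1]
    exact one_ne_zero))
  have hOb : O ⊆ ball (f a) (r₀ ^ 2) := subset_closure.trans hclb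
  have hsm : ∀ t : ℂ, f a + t ^ 2 ∈ ball (f a) (r₀ ^ 2) → t ∈ ball (0 : ℂ) r₀ := by
    intro t ht
    rw [mem_ball, dist_eq_norm, add_sub_cancel_left, norm_pow] at ht
    rw [mem_ball, dist_zero_right]
    exact lt_of_pow_lt_pow_left₀ 2 hr.le ht
  -- the compact set
  obtain ⟨K, hKd⟩ : ∃ K : Set ℂ, K = η a '' {t | f a + t ^ 2 ∈ closure O} := ⟨_, rfl⟩
  have hKb : {t : ℂ | f a + t ^ 2 ∈ closure O} ⊆ ball 0 r₀ := fun t ht => hsm t (hclb ht)
  have hK : IsCompact K := by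
    have h1 : IsClosed {t : ℂ | f a + t ^ 2 ∈ closure O} :=
      isClosed_closure.preimage (f := fun t : ℂ => f a + t ^ 2) (by fun_prop)
    have h3 : IsCompact {t : ℂ | f a + t ^ 2 ∈ closure O} :=
      Metric.isCompact_of_isClosed_isBounded h1 (isBounded_ball.subset hKb)
    rw [hKd]
    exact h3.image_of_continuousOn (hηd.continuousOn.mono hKb)
  have hKp : ∀ y ∈ K, y ∈ η a '' ball 0 r₀ ∧ y ∈ N ∧ f y ∈ closure O := by
    intro y hy
    rw [hKd] at hy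
    obtain ⟨t, ht, rfl⟩ := hy
    refine ⟨⟨t, hKb ht, rfl⟩, (he t (hKb ht)).1, ?_⟩
    rw [(he t (hKb ht)).2]
    exact ht
  -- the reduction
  have red : ∀ O' : Set ℂ, IsOpen O' → IsPreconnected O' → Full O' → O' ⊆ η a '' ball 0 r₀ ∩ f ⁻¹' O → x ∈ O' →
      (∀ y ∈ closure O', f y ∈ O → y ∈ N → y ∈ η a '' ball 0 r₀ → y ∈ O') →
      ∃ O' : Set ℂ, PQ f N Cr (m + 1) O' O₁ (R + 1) ∧ x ∈ O' ∧ O' ⊆ η a '' ball 0 r₀ ∩ f ⁻¹' O := by
    intro O' h1 h2 h3 h4 h5 h6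
    have hsub : O' ⊆ K := by
      intro y hy
      obtain ⟨⟨t, ht, rfl⟩, h8⟩ := h4 hy
      have h9 : f (η a t) ∈ O := h8
      rw [(he t ht).2] at h9
      rw [hKd]
      exact ⟨t, subset_closure h9, rfl⟩
    have hcl : closure O' ⊆ K := closure_minimal hsub hK.isClosed
    refine ⟨O', ⟨h1, h2, h3, hK.isBounded.subset hsub, ?_, ?_, ?_, ?_⟩, h5, h4⟩
    · intro y hy j hj
      obtain ⟨-, h8, h9⟩ := hKp y (hcl hy)
      rcases Nat.eq_zero_or_pos j with rfl | hj0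
      · exact h8
      · obtain ⟨i, rfl⟩ : ∃ i, j = i + 1 := ⟨j - 1, by omega⟩
        rw [Function.iterate_succ_apply]
        exact hO.Nn _ h9 i (by omega)
    · intro y hy
      rw [Function.iterate_succ_apply]
      exact hO.mp _ (h4 hy).2
    · intro y hy
      rw [h1.frontier_eq] at hy
      obtain ⟨h7, h8, h9⟩ := hKp y (hcl hy.1)
      rw [Function.iterate_succ_apply]
      refine hO.fr _ ?_
      rw [hO.op.frontier_eq]
      exact ⟨h9, fun h10 => hy.2 (h6 y hy.1 h10 h8 h7)⟩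
    · have e1 : {i | i < m + 1 ∧ ¬ InjOn f (f^[i] '' O')} ⊆
          insert 0 ((fun i => i + 1) '' {i | i < m ∧ ¬ InjOn f (f^[i] '' O)}) := by
        rintro i ⟨hi, hni⟩
        rcases Nat.eq_zero_or_pos i with rfl | hi0
        · exact mem_insert _ _
        · right
          refine ⟨i - 1, ⟨by omega, fun hinj => hni (hinj.mono ?_)⟩, by show i - 1 + 1 = i; omega⟩
          rintro _ ⟨y, hy, rfl⟩
          refine ⟨f y, (h4 hy).2, ?_⟩
          rw [← Function.iterate_succ_apply, show (i - 1).succ = i by omega]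
      have e2 := Set.ncard_le_ncard e1 ((ct_fin.image _).insert 0)
      have e3 := Set.ncard_insert_le 0 ((fun i => i + 1) '' {i | i < m ∧ ¬ InjOn f (f^[i] '' O)})
      have e4 : ((fun i => i + 1) '' {i | i < m ∧ ¬ InjOn f (f^[i] '' O)}).ncard ≤ R :=
        (Set.ncard_image_le ct_fin).trans hO.ct
      omega
  by_cases hv : f a ∈ O
  · obtain ⟨T, hT⟩ : ∃ T : Set ℂ, T = {t : ℂ | f a + t ^ 2 ∈ O} := ⟨_, rfl⟩
    have hTo : IsOpen T := by
      rw [hT]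
      exact hO.op.preimage (f := fun t : ℂ => f a + t ^ 2) (by fun_prop)
    have hTb : T ⊆ ball 0 r₀ := fun t ht => by
      rw [hT] at ht
      exact hsm t (hOb ht)
    have hop : IsOpen (η a '' T) := po_io hηd hηi hTo hTb
    refine red (η a '' T) hop ?_ ?_ ?_ ?_ ?_
    · rw [hT]
      exact (sq_pre hO.op hO.co hv).image _ (hηd.continuousOn.mono (by rw [← hT]; exact hTb))
    · exact img_full hηd hηi hTb (by rw [hT]; exact sq_full hO.fu)
    · rintro _ ⟨t, ht, rfl⟩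
      refine ⟨⟨t, hTb ht, rfl⟩, ?_⟩
      show f (η a t) ∈ O
      rw [(he t (hTb ht)).2]
      rw [hT] at ht
      exact ht
    · obtain ⟨t, ht, rfl⟩ := hx
      refine ⟨t, ?_, rfl⟩
      rw [hT]
      show f a + t ^ 2 ∈ O
      rw [← (he t ht).2]
      exact hfx
    · rintro y - hy - ⟨t, ht, rfl⟩
      refine ⟨t, ?_, rfl⟩
      rw [hT]
      show f a + t ^ 2 ∈ O
      rw [← (he t ht).2]
      exact hy
  · obtain ⟨W, hW, hxW, hWs⟩ := bh_rt h.No h.fd hηd hηi he hO.op hO.co hO.fu hOb hv hx hfx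
    have hWO : ∀ y ∈ W, f y ∈ O := fun y hy => hW.img ▸ mem_image_of_mem f hy
    refine red W hW.Wo ?_ ?_ (fun y hy => ⟨hWs hy, hWO y hy⟩) hxW ?_
    · have h1 := bh_pre hW (V := O) subset_rfl hO.co
      have h2 : W ∩ f ⁻¹' O = W := inter_eq_left.2 hWO
      rwa [h2] at h1
    · have h1 := hW.fu O subset_rfl hO.fu
      have h2 : W ∩ f ⁻¹' O = W := inter_eq_left.2 hWO
      rwa [h2] at h1
    · intro y hy hyO hyN _
      obtain ⟨g, hgd, -, hg1, hg2⟩ := bh_inv hW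
      obtain ⟨u, hu1, hu2⟩ := mem_closure_iff_seq_limit.1 hy
      have hfc : ContinuousAt f y := (h.fd.differentiableAt (h.No.mem_nhds hyN)).continuousAt
      have h1 : Tendsto (fun n => f (u n)) atTop (𝓝 (f y)) := hfc.tendsto.comp hu2
      have hgc : ContinuousAt g (f y) := hgd.continuousOn.continuousAt (hO.op.mem_nhds hyO)
      have h2 : Tendsto (fun n => g (f (u n))) atTop (𝓝 (g (f y))) := hgc.tendsto.comp h1
      have h3 : Tendsto u atTop (𝓝 (g (f y))) := h2.congr fun n => hg1 _ (hu1 n)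
      rw [tendsto_nhds_unique hu2 h3]
      exact (hg2 _ hyO).1

end Pool.Agent.H81.AC
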