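import Pool.Agent.H81.AC.Near
import Pool.Agent.H81.AC.Pbs
import Pool.Agent.H81.AC.Defs
import Pool.Agent.H81.AC.Po

/-!
# Module Sty: univalent pull back of a window along an orbit in `P` (THEOREM AC)

`sty`. PROOF. `κ₁ ≤ δ` from `ch_near` for `κ`, `M = 2 |L| + 1`, a good level `a ≤ 1 / 2` of `w` (`gl`), `pbs`. If the pull back stops at `K < k` with `f c ∈ W K`, then
`‖f c - f^[k - K] x‖ < κ₁`, so `‖c - f^[k - K - 1] x‖ < κ`, and `w (f^[K + 1] c) > 0`: contradiction. So `K = k`; `pq_pl`.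
-/

set_option autoImplicit false

open Filter Topology Metric Set MeasureTheory

namespace Pool.Agent.H81.AC

open Pool.Agent.H81.RW

open Pool.Agent.H56.TH

variable {f : ℂ → ℂ} {N J P Cr : Set ℂ} {η : ℂ → ℂ → ℂ} {r₀ δ : ℝ} {ρ : ℂ → ENNReal}

theorem sty (h : WW f N J P Cr η r₀ δ ρ) (L : ℝ) {κ : ℝ} (hκ : 0 < κ) : ∃ κ' : ℝ, 0 < κ' ∧ Stay f N P Cr ρ L κ κ' := by
  obtain ⟨κ₂, hκ₂, hn⟩ := ch_near h hκ
  have hδ := h.hδ
  obtain ⟨κ', hκ', hmain⟩ := pbs h (κ := min δ κ₂) (M := 2 * |L| + 1) (lt_min hδ hκ₂) (min_le_left _ _) (by positivity)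
  refine ⟨κ', hκ', ?_⟩
  intro w x k hw hL hxP hwx hsm hcr m O O₁ R hO hxO hOw
  have hwc : Continuous w := ul_cont (ul_um hw)
  obtain ⟨a, ha0, ha1, hga⟩ := gl hwc (hL.trans (ENNReal.ofReal_le_ofReal (le_abs_self L))) (abs_nonneg L) (τ := 1 / 2)
    (M := 2 * |L| + 1) (by norm_num) (by linarith)
  have hN : ∀ j < k, f^[j] x ∈ N ∧ infDist (f^[j] x) P < δ := by
    intro j _
    have h1 := it_P h j hxP
    exact ⟨h.PN h1, (infDist_zero_of_mem h1).trans_lt hδ⟩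
  obtain ⟨K, b, W, hKT, hPL, hnest, hst⟩ := hmain w (f^[k] x) hw hsm a ha0 (by linarith) hga (f^[k] x) (it_P h k hxP) hwx k x
    (h.PJ hxP) hN (by rw [hwx]; linarith)
  have hKk : K = k := by
    by_contra hne
    have hlt : K < k := lt_of_le_of_ne hKT hne
    obtain ⟨c, hc, hcW, hxc, -⟩ := hst hlt
    have hPK := hPL K le_rfl
    have h1 : ‖f c - f^[k - K] x‖ < min δ κ₂ := hPK.sm 0 (Nat.zero_le K) (f c) hcW
    have h2 : f^[k - K] x = f (f^[k - K - 1] x) := by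
      rw [← Function.iterate_succ_apply' f]
      congr 1
      omega
    have h3 : ‖f (f^[k - K - 1] x) - f c‖ < κ₂ := by
      rw [← h2, norm_sub_rev]
      exact h1.trans_le (min_le_right _ _)
    have h4 := hn c hc _ hxc h3
    have h5 := hcr (k - K - 1) (by omega) c hc h4
    have h6 : f^[K] (f c) ∈ {y | b K < w y} := by
      rw [← hPK.bh.img]
      exact mem_image_of_mem _ hcW
    have h7 : b K < w (f^[K] (f c)) := h6
    rw [← Function.iterate_succ_apply f] at h7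
    rw [show k - (k - K - 1) = K + 1 by omega] at h5
    have h8 := hPK.b0
    rw [h5] at h7
    exact absurd h7 (not_lt.2 h8)
  subst hKk
  have hPk := hPL K le_rfl
  rw [Nat.sub_self] at hPk
  obtain ⟨h1, h2, -⟩ := pq_pl h hw (by linarith) hPk hO hOw hxO
  exact ⟨_, h2, h1⟩

end Pool.Agent.H81.AC
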