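import Pool.Agent.H81.AC.Mnp
import Pool.Agent.H81.AC.Sty
import Pool.Agent.H81.AC.Clw
import Pool.Agent.H81.AC.Cvc
import Pool.Agent.H81.AC.Psv
import Pool.Agent.H66.DIM.If
import Pool.Agent.H66.SP.Defs

/-!
# THEOREM AC, part (A): THE END STATEMENT of the cut process for points of `P`

`acl`. From the planar setting `PG` for a closed and relatively open part `P₀` of `P` which contains the critical points (uniformly perfect, with clusters at arbitrarily small scales): levels of all sizes at one critical value `f c`, the univalent pull back `Stay` for the same length bound `L`, and clusters at `f c`.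
(`{f c}` is a component of `P`: `u` is continuous with values `0`, `1` on `P`.)
`acl_w`: the same from the setting `WW`. PROOF. `lmc`: a critical point `c` whose value has a minimal length `Λ`, `main` with its `ε` and length bound `L`, near minimal Lipschitz functions of small scales `r` (`sc_ex`), `C r < κ / A`. For `x ∈ P`, `Ent` is `Fst` since `u` is `0` or `1` on `P`. `s = c₃ r`.
-/

set_option autoImplicit false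

open Filter Topology Metric Set MeasureTheory

namespace Pool.Agent.H81.AC

open Pool.Agent.H56.TH Pool.Agent.H81.RW
open Pool.Agent.H66.DIM (Mn Rg Clu)
open Pool.Agent.H66.SP (PG)

variable {f : ℂ → ℂ} {N J P Cr : Set ℂ} {η : ℂ → ℂ → ℂ} {r₀ δ : ℝ} {ρ : ℂ → ENNReal}

theorem sc_ex (h : WW f N J P Cr η r₀ δ ρ) {M r₁ : ℝ} (hr : RG P M r₁) {v : ℂ} (hvP : v ∈ P) {Λ : ℝ} (hΛ : Lm P ρ v Λ)
    {ε : ℝ} (hε : 0 < ε) : ∃ C : ℝ, 1 ≤ C ∧ ∀ κ : ℝ, 0 < κ → ∃ (u : ℂ → ℝ) (r : ℝ), Sc P ρ v u r C Λ ε ∧ C * r < κ := by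
  obtain ⟨C, hC, hsm⟩ := smooth h hr hvP hΛ hε
  obtain ⟨κ₁, hκ₁, hlo⟩ := hΛ.lo ε hε
  refine ⟨C, hC, fun κ hκ => ?_⟩
  obtain ⟨u, r, hr0, hCr, hum, huv, hlip, hsp, hcr, hle⟩ := hsm (min κ (κ₁ / 2)) (lt_min hκ (half_pos hκ₁))
  refine ⟨u, r, ⟨hr0, hC, hvP, hum, huv, hlip, hsp, hcr, hle, ?_⟩, hCr.trans_le (min_le_left _ _)⟩
  intro x hx w hw hwx hwu
  refine hlo x hx w hw hwx fun y hy => ?_
  have h1 := hsp y (hwu y hy)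
  have h2 := hsp x (hwu x (by rw [hwx]; exact one_pos))
  have h3 : C * r < κ₁ / 2 := hCr.trans_le (min_le_right _ _)
  calc ‖y - x‖ = ‖(y - v) - (x - v)‖ := by congr 1; ring
    _ ≤ ‖y - v‖ + ‖x - v‖ := norm_sub_le _ _
    _ < κ₁ := by linarith

theorem ent_fst (h : WW f N J P Cr η r₀ δ ρ) {E : Set ℂ} {u : ℂ → ℝ} (hu : UM P u) {x : ℂ} (hx : x ∈ P) {n : ℕ}
    (hE : Ent f E u x n) : Fst f E u x n := by
  refine ⟨⟨hE.1.1, by rw [hE.1.2]; norm_num⟩, fun t ht hh => hE.2 t ht ⟨hh.1, ?_⟩⟩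
  rcases hu.va _ (it_P h (t + 1) hx) with h1 | h1
  · rw [h1] at hh
    exact absurd hh.2 (by norm_num)
  · exact h1

theorem acl_w (h : WW f N J P Cr η r₀ δ ρ) (hRg : Rg P) (hClu : Clu P) :
    ∃ (c : ℂ) (R : ℕ) (L : ℝ), c ∈ Cr ∧ (∀ κ : ℝ, 0 < κ → Lev f N P Cr (η c '' ball 0 r₀) ρ (f c) R L κ) ∧
      (∀ κ : ℝ, 0 < κ → ∃ κ' : ℝ, 0 < κ' ∧ Stay f N P Cr ρ L κ κ') ∧ ClV P (f c) := by
  obtain ⟨c, hc, Λ, hΛ⟩ := lmc h hClu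
  have hvP : f c ∈ P := h.Pf _ (h.CP hc)
  have hΛ1 : 1 ≤ Λ := lm_pos h hvP hΛ
  obtain ⟨M, r₁, hRG⟩ : ∃ M r₁ : ℝ, RG P M r₁ := hRg
  obtain ⟨ε, L, hε, hε1, hmain⟩ := main h hc hRG hΛ1
  obtain ⟨C, hC, hsc⟩ := sc_ex h hRG hvP hΛ hε
  obtain ⟨A, c₃, hA, hc₃, hmn⟩ := hmain C hC
  refine ⟨c, Cr.ncard + 1, L, hc, fun κ hκ => ?_, fun κ hκ => sty h L hκ, clv h hRG hvP hΛ⟩
  obtain ⟨κ₀, hκ₀, hm0⟩ := hmn κ hκ
  have hA0 : 0 < A := by linarith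
  obtain ⟨u, r, hS, hCr⟩ := hsc (min κ₀ (κ / A)) (lt_min hκ₀ (by positivity))
  have hr0 := hS.r0
  have h1 : C * r < κ / A := hCr.trans_le (min_le_right _ _)
  have h2 : r ≤ C * r := le_mul_of_one_le_left hr0.le hC
  have h3 : κ / A ≤ κ := div_le_self hκ.le hA
  have h4 : A * r < κ := by
    have h5 : r < κ / A := h2.trans_lt h1
    rw [lt_div_iff₀ hA0] at h5
    linarith
  refine ⟨u, c₃ * r, by positivity, hS.um, hS.uv, fun y hy => (hS.sp y hy).trans (h1.trans_le h3), fun x hx n hn => ?_⟩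
  rcases hm0 u r hS (hCr.trans_le (min_le_left _ _)) x hx n (ent_fst h hS.um hx hn) with h6 | h6
  · exact Or.inl h6
  · obtain ⟨w, m, O, O₁, k1, k2, k3, k4, k5, k6, k7, k8, k9, k10, k11⟩ := h6
    exact Or.inr ⟨w, m, O, O₁, k1, k2, k3, k4, k5, k6, k7, k8, k9, k10.trans (closedBall_subset_ball h4), k11.2⟩

theorem acl {f : ℂ → ℂ} {U J P P₀ Cr : Set ℂ} {δ : ℝ} {η : ℂ → ℂ → ℂ} {r₀ : ℝ} (h : PG f U J P Cr δ η r₀) (h0 : IsClosed P₀)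
    (h0P : P₀ ⊆ P) (h0f : ∀ x ∈ P₀, f x ∈ P₀) (h0o : IsClosed (P \ P₀)) (hCP : Cr ⊆ P₀)
    (hCn : Cr.Nonempty) (hden : P₀ ⊆ closure {y | ∃ c ∈ Cr, ∃ n : ℕ, f^[n] (f c) = y}) (hRg : Rg P₀) (hClu : Clu P₀) :
    ∃ (ρ : ℂ → ENNReal) (c : ℂ) (R : ℕ) (L : ℝ), c ∈ Cr ∧ (∀ κ : ℝ, 0 < κ → Lev f U P₀ Cr (η c '' ball 0 r₀) ρ (f c) R L κ) ∧
      (∀ κ : ℝ, 0 < κ → ∃ κ' : ℝ, 0 < κ' ∧ Stay f U P₀ Cr ρ L κ κ') ∧
      ∃ ε : ℝ, 0 < ε ∧ ∀ r₁ : ℝ, 0 < r₁ → ∃ r : ℝ, 0 < r ∧ r < r₁ ∧ ∃ A ⊆ P₀, f c ∈ A ∧ (∀ x ∈ A, ∀ y ∈ A, ‖x - y‖ ≤ r) ∧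
        ∀ x ∈ A, ∀ y ∈ P₀, y ∉ A → ε * r ≤ ‖x - y‖ := by
  obtain ⟨δ', -, -, hW⟩ := wwv_p0 h h0 h0P h0f h0o hCP hCn hden
  obtain ⟨c, R, L, hc, h1, h2, h3⟩ := acl_w hW hRg hClu
  exact ⟨_, c, R, L, hc, h1, h2, h3⟩

end Pool.Agent.H81.AC
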