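import Pool.Agent.H81.AC.Pfar
import Pool.Agent.H81.AC.Po
import Pool.Agent.H81.RW.Hit

/-!
# Module Acd (AC): access sets and states of the cut process (for points of `P`)

`Sta`: the state of the cut process at time `T`: `w` unimodal at `z_T`, all points of its content have first entrance time `n - T`; `i`: all events up to now have index `< i`. `Tb`: type (B). `Pou`: the outcome.
-/

set_option autoImplicit false

open Filter Topology Metric Set MeasureTheory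

namespace Pool.Agent.H81.AC

open Pool.Agent.H81.RW

open Pool.Agent.H56.TH

/-- access sets -/
def Ac (P : Set ℂ) (v : ℂ) (r A c : ℝ) (G : Set ℂ) : Prop :=
  G ⊆ closedBall v (A * r) ∧ ∀ x ∈ G, ∀ p ∈ P, c * r ≤ ‖x - p‖

/-- the state of the cut process at time `T` -/
structure Sta (f : ℂ → ℂ) (N Cr P E : Set ℂ) (ρ : ℂ → ENNReal) (v : ℂ) (u : ℂ → ℝ) (r A c : ℝ) (z : ℂ) (n T i : ℕ)
    (κ L : ℝ) (R : ℕ) (w : ℂ → ℝ) : Prop where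
  Tn : T ≤ n
  um : UM P w
  wz : w (f^[T] z) = 1
  sz : ∀ y, 0 < w y → ‖y - f^[T] z‖ < κ
  le : ell ρ w ≤ ENNReal.ofReal L
  en : ∀ x ∈ P, w x = 1 → Ent f E u x (n - T)
  ix : i ≤ n - T ∨ (i = n - T + 1 ∧ (∀ x ∈ P, w x = 1 → u x = 0) ∧ f^[T - 1] z ∈ E ∧ ‖f^[T] z - v‖ ≤ A * r)
  po : ∃ (O O₁ : Set ℂ) (T₁ : ℕ), T ≤ T₁ ∧ 1 ≤ T₁ ∧ T₁ ≤ n + 1 ∧ PQ f N Cr (T₁ - T) O O₁ R ∧
    f^[T] z ∈ O ∧ (∀ y ∈ O, w y = 1) ∧ O₁ ⊆ closedBall v (A * r) ∧ Ac P v r A c (frontier O₁)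

/-- type (B): all points of the content of `u` have the same first entrance time `k < n` -/
def Tb (f : ℂ → ℂ) (P E : Set ℂ) (u : ℂ → ℝ) (n : ℕ) : Prop := ∃ k < n, ∀ p ∈ P, u p = 1 → Ent f E u p k

/-- the outcome of the cut process -/
def Pou (f : ℂ → ℂ) (N Cr P : Set ℂ) (ρ : ℂ → ENNReal) (v : ℂ) (r A c : ℝ) (z : ℂ) (n : ℕ) (κ L : ℝ) (R : ℕ) : Prop :=
  ∃ (w : ℂ → ℝ) (m : ℕ) (O O₁ : Set ℂ), UM P w ∧ w z = 1 ∧ (∀ y, 0 < w y → ‖y - z‖ < κ) ∧ ell ρ w ≤ ENNReal.ofReal L ∧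
    1 ≤ m ∧ m ≤ n + 1 ∧ PQ f N Cr m O O₁ R ∧ z ∈ O ∧ (∀ y ∈ O, w y = 1) ∧ O₁ ⊆ closedBall v (A * r) ∧ Ac P v r A c (frontier O₁)

theorem ac_mono {P : Set ℂ} {v : ℂ} {r A A' c c' : ℝ} {G : Set ℂ} (hr : 0 ≤ r) (h : Ac P v r A c G) (hA : A ≤ A')
    (hc : c' ≤ c) : Ac P v r A' c' G :=
  ⟨h.1.trans (closedBall_subset_closedBall (mul_le_mul_of_nonneg_right hA hr)),
    fun x hx p hp => (mul_le_mul_of_nonneg_right hc hr).trans (h.2 x hx p hp)⟩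

end Pool.Agent.H81.AC
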