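import Pool.Agent.H81.AC.Wdf
import Pool.Agent.H81.RW.Crit
import Pool.Agent.H81.AC.Pbk

/-!
# Module Near (LW): THE CHARTS; THE CRITICAL PULL BACK OF A SMALL FUNCTION

`ch_near`. PROOF. `η a` is continuous at `0` with value `a`; `x = η a t`, `f x - f a = t ^ 2`, so `‖t‖` is small; `Cr` is finite. `ch_nhd`. PROOF. `η a` is injective and holomorphic on `ball 0 r₀`: an open map (`H39/HO inj_open`, see `bh_open`), `a = η a 0` is in the open set `η a '' ball 0 r₀`; `Cr` finite. `cr_sep`: finite sets are discrete.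
`crs`. PROOF. `r > 0` with `r ≤ r₀`, `r ^ 2 ≤ δ`; `κ'` with `4 κ' < r ^ 2` and, by `ch_near`, `‖f y - f a‖ < 2 κ'` implies `‖y - a‖ < κ / 2` in the chart. `w₁ = pb f (η a '' ball 0 r) w`. `{0 < w}` has diameter `< 2 κ'` and contains `f a`: `tsupport w ⊆ closedBall (f a) (2 κ') ⊆ ball (f a) (r ^ 2)`. `cr_um`, `cr_ell` (Crit) with the radius `r`:
for `y ∈ η a '' ball 0 r`: `f y ∈ ball (f a) (r ^ 2) ⊆ thickening δ J`, so `WW.ct` applies. For `y ∈ η a '' ball 0 r₀`: if `y = η a t`, `‖t‖ < r`: `w₁ y = w (f y)`; if `‖t‖ ≥ r` then `y ∉ η a '' ball 0 r` (injectivity), `w₁ y = 0`, and `f y = f a + t ^ 2 ∉ tsupport w`, so `w (f y) = 0`.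
If `0 < w₁ y` then `y ∈ η a '' ball 0 r`, `0 < w (f y)`, so `‖f y - f a‖ < 2 κ'`, `‖y - a‖ < κ / 2`; the same for `x` (`w (f x) = 1`).
-/

set_option autoImplicit false

open Filter Topology Metric Set MeasureTheory

namespace Pool.Agent.H81.AC

open Pool.Agent.H81.RW

open Pool.Agent.H56.TH

variable {f : ℂ → ℂ} {N J P Cr : Set ℂ} {η : ℂ → ℂ → ℂ} {r₀ δ : ℝ} {ρ : ℂ → ENNReal}

private theorem near_fin {S : Set ℂ} (hS : S.Finite) {Q : ℂ → ℝ → Prop} (hm : ∀ a x y, x ≤ y → Q a y → Q a x)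
    (h : ∀ a ∈ S, ∃ κ : ℝ, 0 < κ ∧ Q a κ) : ∃ κ : ℝ, 0 < κ ∧ ∀ a ∈ S, Q a κ := by
  have h1 : ∀ᶠ κ in 𝓝[>] (0 : ℝ), ∀ a ∈ S, Q a κ := by
    rw [eventually_all_finite hS]
    intro a ha
    obtain ⟨κ, hκ, hQ⟩ := h a ha
    filter_upwards [Ioo_mem_nhdsGT hκ] with x hx
    exact hm a x κ hx.2.le hQ
  obtain ⟨κ, h2, h3⟩ := (h1.and self_mem_nhdsWithin).exists
  exact ⟨κ, h3, h2⟩

theorem ch_near (h : WW f N J P Cr η r₀ δ ρ) {ε : ℝ} (hε : 0 < ε) : ∃ κ : ℝ, 0 < κ ∧ ∀ a ∈ Cr, ∀ x ∈ η a '' ball 0 r₀,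
    ‖f x - f a‖ < κ → ‖x - a‖ < ε := by
  refine near_fin h.Cf (Q := fun a κ => ∀ x ∈ η a '' ball 0 r₀, ‖f x - f a‖ < κ → ‖x - a‖ < ε)
    (fun a x y hxy hQ z hz hz2 => hQ z hz (hz2.trans_le hxy)) fun a ha => ?_
  have h0 : (0 : ℂ) ∈ ball (0 : ℂ) r₀ := mem_ball_self h.hr
  have hc : ContinuousAt (η a) 0 := (h.ηd a ha).continuousOn.continuousAt (isOpen_ball.mem_nhds h0)
  obtain ⟨d, hd, hd1⟩ := Metric.continuousAt_iff.1 hc ε hε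
  refine ⟨d ^ 2, by positivity, ?_⟩
  rintro _ ⟨t, ht, rfl⟩ h1
  rw [(h.ηv a ha t ht).2, add_sub_cancel_left, norm_pow] at h1
  have h2 : ‖t‖ < d := lt_of_pow_lt_pow_left₀ 2 hd.le h1
  have h3 := hd1 (x := t) (by rwa [dist_zero_right])
  rwa [h.η0 a ha, dist_eq_norm] at h3

theorem ch_nhd (h : WW f N J P Cr η r₀ δ ρ) : ∃ ε : ℝ, 0 < ε ∧ ∀ a ∈ Cr, ball a ε ⊆ η a '' ball 0 r₀ := by
  refine near_fin h.Cf (Q := fun a ε => ball a ε ⊆ η a '' ball 0 r₀)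
    (fun a x y hxy hQ => (ball_subset_ball hxy).trans hQ) fun a ha => ?_
  have hop : IsOpen (η a '' ball 0 r₀) :=
    Pool.Agent.H39.HO.inj_open isOpen_ball (h.ηd a ha) (h.ηi a ha) subset_rfl isOpen_ball
  obtain ⟨ε, hε, h1⟩ := Metric.isOpen_iff.1 hop a ⟨0, mem_ball_self h.hr, h.η0 a ha⟩
  exact ⟨ε, hε, h1⟩

theorem cr_sep (h : WW f N J P Cr η r₀ δ ρ) : ∃ ε : ℝ, 0 < ε ∧ ∀ a ∈ Cr, ∀ b ∈ Cr, ‖a - b‖ < ε → a = b := by
  refine near_fin h.Cf (Q := fun a ε => ∀ b ∈ Cr, ‖a - b‖ < ε → a = b)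
    (fun a x y hxy hQ b hb hab => hQ b hb (hab.trans_le hxy)) fun a _ => ?_
  refine near_fin h.Cf (Q := fun b ε => ‖a - b‖ < ε → a = b) (fun b x y hxy hQ hab => hQ (hab.trans_le hxy)) fun b _ => ?_
  by_cases hab : a = b
  · exact ⟨1, one_pos, fun _ => hab⟩
  · exact ⟨‖a - b‖, norm_pos_iff.2 (sub_ne_zero.2 hab), fun h1 => absurd h1 (lt_irrefl _)⟩

theorem crs (h : WW f N J P Cr η r₀ δ ρ) {κ : ℝ} (hκ : 0 < κ) : ∃ κ' : ℝ, 0 < κ' ∧ ∀ a ∈ Cr, ∀ (w : ℂ → ℝ) (ζ x : ℂ), UM P w →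
    (∀ y, 0 < w y → ‖y - ζ‖ < κ') → w (f a) = 1 → x ∈ η a '' ball 0 r₀ → w (f x) = 1 →
    tsupport w ⊆ ball (f a) (r₀ ^ 2) ∧ ∃ w₁ : ℂ → ℝ, UM P w₁ ∧ (∀ y ∈ η a '' ball 0 r₀, w₁ y = w (f y)) ∧
      (∀ y, 0 < w₁ y → y ∈ η a '' ball 0 r₀ ∧ ‖y - x‖ < κ) ∧ ell ρ w₁ ≤ 2 * ell ρ w := by
  obtain ⟨κ₁, hκ₁, hn⟩ := ch_near h (ε := κ / 2) (by linarith)
  have hr0 := h.hr
  have hδ := h.hδ
  obtain ⟨r, hr, hrr, hr1, hrδ⟩ : ∃ r : ℝ, 0 < r ∧ r ≤ r₀ ∧ r ≤ 1 ∧ r ≤ δ :=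
    ⟨min r₀ (min 1 δ), by positivity, min_le_left _ _, (min_le_right _ _).trans (min_le_left _ _),
      (min_le_right _ _).trans (min_le_right _ _)⟩
  have hr2 : r ^ 2 ≤ δ := by nlinarith
  have hr3 : r ^ 2 ≤ r₀ ^ 2 := pow_le_pow_left₀ hr.le hrr 2
  obtain ⟨κ', hκ', hk1, hk2⟩ : ∃ κ' : ℝ, 0 < κ' ∧ 2 * κ' < r ^ 2 ∧ 2 * κ' ≤ κ₁ := by
    refine ⟨min (r ^ 2 / 4) (κ₁ / 2), by positivity, ?_, ?_⟩
    · have h1 := min_le_left (r ^ 2 / 4) (κ₁ / 2)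
      have h2 : 0 < r ^ 2 := by positivity
      linarith
    · have h1 := min_le_right (r ^ 2 / 4) (κ₁ / 2)
      linarith
  refine ⟨κ', hκ', ?_⟩
  intro a ha w ζ x hw hs hwa hx hwx
  have hpos : ∀ y, 0 < w y → ‖y - f a‖ < 2 * κ' := by
    intro y hy
    have h1 := hs y hy
    have h2 := hs (f a) (by rw [hwa]; exact one_pos)
    have h3 : ‖y - f a‖ ≤ ‖y - ζ‖ + ‖f a - ζ‖ := by
      have h4 : y - f a = (y - ζ) - (f a - ζ) := by ring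
      rw [h4]
      exact norm_sub_le _ _
    linarith
  have hts : tsupport w ⊆ ball (f a) (r ^ 2) := by
    have h1 : tsupport w ⊆ closedBall (f a) (2 * κ') := by
      refine closure_minimal (fun y hy => ?_) isClosed_closedBall
      have h2 : 0 < w y := lt_of_le_of_ne (hw.lo y) (Ne.symm hy)
      rw [mem_closedBall, dist_eq_norm]
      exact (hpos y h2).le
    exact h1.trans (closedBall_subset_ball hk1)
  have hsub : ball (0 : ℂ) r ⊆ ball 0 r₀ := ball_subset_ball hrr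
  have hηd := (h.ηd a ha).mono hsub
  have hηi := (h.ηi a ha).mono hsub
  have he : ∀ x ∈ ball (0 : ℂ) r, η a x ∈ N ∧ f (η a x) = f a + x ^ 2 := fun x hx => h.ηv a ha x (hsub hx)
  have hfaJ : f a ∈ J := h.PJ (h.Pf _ (h.CP ha))
  obtain ⟨hum, -⟩ := cr_um (P := P) h.No h.fd hηd hηi he hw hwa hts fun y hy _ => h.Pf y hy
  have hell := cr_ell (ρ := ρ) h.No h.fd hηd hηi he hw.cs hts (by
    rintro _ ⟨t, ht, rfl⟩ hd
    refine h.ct _ (he t ht).1 ?_ hd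
    rw [mem_thickening_iff]
    refine ⟨f a, hfaJ, ?_⟩
    rw [(he t ht).2, dist_eq_norm, add_sub_cancel_left, norm_pow]
    have h1 : ‖t‖ < r := mem_ball_zero_iff.1 ht
    have h2 : ‖t‖ ^ 2 < r ^ 2 := pow_lt_pow_left₀ h1 (norm_nonneg _) two_ne_zero
    linarith)
  refine ⟨hts.trans (ball_subset_ball hr3), pb f (η a '' ball 0 r) w, hum, ?_, ?_, hell⟩
  · rintro _ ⟨t, ht, rfl⟩
    by_cases htr : t ∈ ball (0 : ℂ) r
    · exact pb_on ⟨t, htr, rfl⟩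
    · have h1 : η a t ∉ η a '' ball 0 r := by
        rintro ⟨t', ht', he'⟩
        exact htr (h.ηi a ha (hsub ht') ht he' ▸ ht')
      rw [pb_off h1]
      by_contra hne
      have h2 : 0 < w (f (η a t)) := lt_of_le_of_ne (hw.lo _) hne
      have h3 := hpos _ h2
      rw [(h.ηv a ha t ht).2, add_sub_cancel_left, norm_pow] at h3
      have h4 : r ≤ ‖t‖ := by
        by_contra h5
        exact htr (mem_ball_zero_iff.2 (not_le.1 h5))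
      have h6 : r ^ 2 ≤ ‖t‖ ^ 2 := pow_le_pow_left₀ hr.le h4 2
      linarith
  · intro y hy
    have hyr : y ∈ η a '' ball 0 r := by
      by_contra h1
      rw [pb_off h1] at hy
      exact lt_irrefl _ hy
    rw [pb_on hyr] at hy
    have hyr0 : y ∈ η a '' ball 0 r₀ := image_mono hsub hyr
    refine ⟨hyr0, ?_⟩
    have h1 := hn a ha y hyr0 ((hpos _ hy).trans_le hk2)
    have h2 := hn a ha x hx ((hpos _ (by rw [hwx]; exact one_pos)).trans_le hk2)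
    have h3 : ‖y - x‖ ≤ ‖y - a‖ + ‖x - a‖ := by
      have h4 : y - x = (y - a) - (x - a) := by ring
      rw [h4]
      exact norm_sub_le _ _
    linarith

end Pool.Agent.H81.AC
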