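import Pool.Agent.H81.AC.Adv1
import Pool.Agent.H81.AC.Adv2

/-!
# Module Adv (LW): ONE ROUND OF THE CUT PROCESS

`Bs`: indices of cuts, `Qs`: indices of critical passes. `adv`: from a state one gets the outcome, or a new state with a larger index.
CONSTANTS: `B ∈ (0, 1)`, `τ`, `ε` with `(ℓ (1 - τ)⁻¹ + 5 ε) / B ≤ (1 + σ) ℓ` for all `ℓ ≥ 1`, `(1 - τ)⁻¹ ≤ 1 + σ`, and `ε < 1` (`B = (1 + σ / 2) / (1 + σ)`, `(1 - τ)⁻¹ + 5 ε ≤ 1 + σ / 2`); `t = (1 + B) / 2`, `L₁ = 2 Lm` (a bound for the length of `w'`). `c₀`, `A₀` from `pf_cut`, `up_cut`, `bst`, minimum / maximum (and `A₀ ≥ 1`); all larger `A` and smaller `c₃` are allowed. For `κ`: `ε₁` from `cr_sep`, `ch_nhd` (radius `ε₂`); `κ₁ = min (κ, δ / 8, ε₁ / 8, ε₂ / 8)`; `ch_near` for `ε₁ / 8` and for `ε₂ / 8`: `κ₂`; `κ₃` from `crs` for `κ₁`;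
`κ₄ = min (κ₁, κ₂ / 4, κ₃, δ / 8)` is the `κ` of `step`, `κ'` small against everything (`A κ' < κ₂ / 4`, `C r < κ' ≤ δ / 16`, `r < κ'`; `2 r < r₁`).
`hE` of `step`: `x ∈ E = η c '' ball 0 r₀`, `u (f x) = 1`: `‖f x - f c‖ < C r < κ₂`, so `‖x - c‖ < ε₂ / 8`; `‖y - x‖ < κ₄`: `y ∈ ball c ε₂ ⊆ E`.
ROUND. State `w` at `T`, `ζ = z_(T - k)`. `step` gives `a`, `k`, `b`, `W`. `w' = pb (f^[k]) W (trc a 1 w)`: `pl_um`: unimodal, `ell ρ w' ≤ (1 - a)⁻¹ L`, `w' ζ = 1` (`w (z_T) = 1`), `{0 < w'} ⊆ W`, so within `min κ₄ δ` of `ζ` (`PL.sm`, `j = 0`); `w' x = 1` implies `x ∈ W`, `w (f^[k] x) = 1`, and conversely. CONTENTS: `x ∈ P`, `w' x = 1`: `Ent (f^[k] x) (n - T)`, no hit before `k`: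
`Ent x (n - T + k) = Ent x (n - (T - k))` (`ent_add`). `po_pl`: `O' = W ∩ f^[k] ⁻¹' O`, `PO f N (T₁ - T + k) O' O₁ D`, `T₁ - T + k = T₁ - (T - k)`, `ζ ∈ O'`, `w' = 1` on `O'`.
(0) `k = T`: outcome: `m = T₁`, `O'` (`z = z_0 ∈ O'`, `‖y - z‖ < κ` for `y ∈ O' ⊆ W`), `D`.
(1) TYPE 1, `T' = T - k ≥ 1`, `a₀ ∈ P`, `w' a₀ = 1`, `u a₀ = 1`, `z_(T' - 1) ∈ E`. Then `T' - 1 < n`, so `u ζ ≤ 1 / 2` (first entrance). (1B) all `p ∈ P` with `u p = 1` have `w' p = 1`: by `ent_min` with `k := n - T'` (`f` continuous on `P`) every `x ∈ P` with `w' x = 1` has `u x = 1`: `bst`, outcome with `m = T'`.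
(1A) `p ∈ P`, `u p = 1`, `w' p = 0` (`va`). `cut1` with `B`, `t`: `w''`, `O`. `frontier O` is an access set (`pf_cut`, `up_cut`; `frontier O ⊆ {t ≤ w'}` by continuity), `O ⊆ closedBall v (A r)`. If no `x ∈ P` has `w'' x = 1`: `O` is disjoint from `P`: `est`, outcome with `m = T'`, `ζ ∈ O`. Otherwise the new state: `T'`, `i' = n - T' + 1`, `T₁ := T'`, `O₁ := O`, `po_zero` (`D` by `po_mono`), `w''`: `ix`: second alternative
(`‖ζ - v‖ ≤ A r` since `ζ ∈ O`), contents: `w'' x = 1` implies `w' x = 1`. `ell ρ w'' ≤ B⁻¹ (ell ρ w' + 5 ε) ≤ (1 + σ) L`. `Bs (n - T')`: `a₀` with `gap1` for `w'` (length `≤ L₁`): a point `a' ∈ P` with `‖a' - a₀‖ < gapc Λ L₁ * r` has `w' a' = 1`, so `Ent a' (n - T')`.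
`i ≤ n - T'`: clear in the first alternative of `ix`; in the second alternative `k ≥ 1` (for `k = 0` the point `a₀` has `w a₀ = 1`, `u a₀ = 1`, impossible), so `n - T' ≥ n - T + 1`.
(2) TYPE 2, `c' ∈ Cr`, `f c' ∈ W`, `z_(T' - 1) ∈ η c' '' ball 0 r₀`, `T' = T - k`. `w' (f c') = 1`: `b < w (f^[k] (f c'))`, in `P`, so `= 1`. `crs` with `a := c'`, `x := z_(T' - 1)`: `w₁`; `po_cr`: `O''`. New state: time `T' - 1`, `i' = n - (T' - 1)`, index `i' - 1 = n - T'` in `Qs` (`Ent (f c') (n - T')`). Length `≤ 2 (1 + σ) L`, `D' = 2 D`, `T₁ - T' + 1 = T₁ - (T' - 1)`. Contents: `x ∈ P`, `w₁ x = 1`: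
`x ∈ η c' '' ball 0 r₀`, `w' (f x) = 1`, so `Ent (f x) (n - T')`; not `Hit x 0`: otherwise `x ∈ E`, `u (f x) = 1`, and `f x` is in the content of `w'`; `z_(T' - 1)` is within `κ₁` of `x`, so in `E`: type 1. So `Ent x (n - T' + 1)` (`ent_add` with `k = 1`). The content contains `c'` (`w₁ c' = w' (f c') = 1`). `ix`: first alternative.
`i ≤ n - T'`: first alternative of the old `ix`: clear. Second alternative: if `k ≥ 1` clear. `k = 0`: `z_(T - 1) ∈ E` and `‖z_T - v‖ ≤ A r < κ₂`: `‖z_(T - 1) - c‖ < ε₁ / 8`; `z_(T - 1)` in the chart of `c'`, `‖z_T - f c'‖ < κ₂` (both in `{0 < w}`): `‖z_(T - 1) - c'‖ < ε₁ / 8`; so `c' = c`, `w v = 1`, but `u v = 1`: contradiction to the second alternative of `ix`.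
-/

set_option autoImplicit false

open Filter Topology Metric Set MeasureTheory

namespace Pool.Agent.H81.AC

open Pool.Agent.H81.RW

open Pool.Agent.H56.TH

private theorem pou_mono {f : ℂ → ℂ} {N Cr P : Set ℂ} {ρ : ℂ → ENNReal} {v : ℂ} {r A c : ℝ} {z : ℂ} {n : ℕ} {κ κ' L L' : ℝ} {R R' : ℕ}
    (h : Pou f N Cr P ρ v r A c z n κ L R) (hκ : κ ≤ κ') (hL : L ≤ L') (hR : R ≤ R') : Pou f N Cr P ρ v r A c z n κ' L' R' := by
  obtain ⟨w, m, O, O₁, h1, h2, h3, h4, h5, h6, h7, h8, h9, h10, h11⟩ := h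
  exact ⟨w, m, O, O₁, h1, h2, fun y hy => (h3 y hy).trans_le hκ, h4.trans (ENNReal.ofReal_le_ofReal hL), h5, h6, pq_mono h7 hR,
    h8, h9, h10, h11⟩

private theorem sta_mono {f : ℂ → ℂ} {N Cr P E : Set ℂ} {ρ : ℂ → ENNReal} {v : ℂ} {u : ℂ → ℝ} {r A c : ℝ} {z : ℂ} {n T i R : ℕ}
    {κ κ' L L' : ℝ} {w : ℂ → ℝ} (h : Sta f N Cr P E ρ v u r A c z n T i κ L R w) (hκ : κ ≤ κ') (hL : L ≤ L') :
    Sta f N Cr P E ρ v u r A c z n T i κ' L' R w :=
  ⟨h.Tn, h.um, h.wz, fun y hy => (h.sz y hy).trans_le hκ, h.le.trans (ENNReal.ofReal_le_ofReal hL), h.en, h.ix, h.po⟩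

variable {f : ℂ → ℂ} {N J P Cr : Set ℂ} {η : ℂ → ℂ → ℂ} {r₀ δ : ℝ} {ρ : ℂ → ENNReal}

theorem adv (h : WW f N J P Cr η r₀ δ ρ) {c : ℂ} (hc : c ∈ Cr) {M r₁ : ℝ} (hr : RG P M r₁) {Λ Lm σ : ℝ} (hΛ : 1 ≤ Λ)
    (hL : 1 ≤ Lm) (hσ : 0 < σ) (hσ1 : σ < 1) :
    ∃ ε : ℝ, 0 < ε ∧ ε < 1 ∧ ∀ ε' C : ℝ, 0 < ε' → ε' ≤ ε → 1 ≤ C → ∃ A₀ c₀ : ℝ, 1 ≤ A₀ ∧ 0 < c₀ ∧ ∀ A c₃ : ℝ, A₀ ≤ A →
      0 < c₃ → c₃ ≤ c₀ → ∀ κ : ℝ, 0 < κ → ∃ κ' : ℝ, 0 < κ' ∧ ∀ (u : ℂ → ℝ) (r : ℝ), Sc P ρ (f c) u r C Λ ε' →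
      C * r < κ' → ∀ z ∈ P, ∀ n, Fst f (η c '' ball 0 r₀) u z n →
      ∀ (T i R : ℕ) (L : ℝ) (w : ℂ → ℝ), 1 ≤ L → L ≤ Lm →
      Sta f N Cr P (η c '' ball 0 r₀) ρ (f c) u r A c₃ z n T i κ' L R w →
      (Tb f P (η c '' ball 0 r₀) u n ∨ Pou f N Cr P ρ (f c) r A c₃ z n κ (2 * Lm) R) ∨ ∃ (T' i' : ℕ) (w' : ℂ → ℝ), i < i' ∧
        ((Bs f P (η c '' ball 0 r₀) u (gapc Λ (2 * Lm) * r) (i' - 1) ∧
          Sta f N Cr P (η c '' ball 0 r₀) ρ (f c) u r A c₃ z n T' i' κ (L * (1 + σ)) R w') ∨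
        (Qs f Cr (η c '' ball 0 r₀) u (i' - 1) ∧
          Sta f N Cr P (η c '' ball 0 r₀) ρ (f c) u r A c₃ z n T' i' κ (2 * L * (1 + σ)) (R + 1) w')) := by
  -- constants
  obtain ⟨B, hBd⟩ : ∃ B, B = (1 + σ / 2) / (1 + σ) := ⟨_, rfl⟩
  have hB0 : 0 < B := by
    rw [hBd]
    positivity
  have hB1 : B < 1 := by
    rw [hBd, div_lt_one (by positivity)]
    linarith
  have hBs : B⁻¹ * (1 + σ / 2) = 1 + σ := by
    rw [hBd, inv_div]
    field_simp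
  obtain ⟨τ, hτd⟩ : ∃ τ, τ = σ / 4 / (1 + σ / 4) := ⟨_, rfl⟩
  have hτ0 : 0 < τ := by
    rw [hτd]
    positivity
  have hτ1 : τ < 1 := by
    rw [hτd, div_lt_one (by positivity)]
    linarith
  have hτi : (1 - τ)⁻¹ = 1 + σ / 4 := by
    have h1 : 1 - τ = (1 + σ / 4)⁻¹ := by
      rw [hτd]
      field_simp
      ring
    rw [h1, inv_inv]
  refine ⟨σ / 20, by positivity, by linarith, ?_⟩
  intro ε' C hε' hεε hC
  obtain ⟨A₀, c₀, hA₀, hc₀, H1⟩ := adv1 (Λ := Λ) (L₁ := 2 * Lm) (B := B) (t := (1 + B) / 2) (C := C) (M := M) hΛ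
    (by linarith) hB0 (by linarith) (by linarith) hC
  refine ⟨A₀, c₀, hA₀, hc₀, ?_⟩
  intro A c₃ hA hc₃ hc₃' κ hκ
  have hδ := h.hδ
  have hA1 : 1 ≤ A := hA₀.trans hA
  obtain ⟨ε₁, hε₁, hsep⟩ := cr_sep h
  obtain ⟨ε₂, hε₂, hnhd⟩ := ch_nhd h
  obtain ⟨κn, hκn, hnear⟩ := ch_near h (ε := ε₁ / 8) (by positivity)
  obtain ⟨κm, hκm, hnear2⟩ := ch_near h (ε := ε₂ / 8) (by positivity)
  obtain ⟨κ₃, hκ₃, H2⟩ := adv2 h (κ := min κ (ε₂ / 8)) (lt_min hκ (by positivity))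
  obtain ⟨κ₄, hκ₄, hk1, hk2, hk3, hk4⟩ : ∃ κ₄ : ℝ, 0 < κ₄ ∧ κ₄ ≤ κ ∧ κ₄ ≤ δ / 8 ∧ κ₄ ≤ κ₃ ∧ κ₄ ≤ ε₂ / 8 :=
    ⟨min (min κ (δ / 8)) (min κ₃ (ε₂ / 8)), by positivity, (min_le_left _ _).trans (min_le_left _ _),
      (min_le_left _ _).trans (min_le_right _ _), (min_le_right _ _).trans (min_le_left _ _),
      (min_le_right _ _).trans (min_le_right _ _)⟩
  obtain ⟨κ₅, hκ₅, Hst⟩ := step h (κ := κ₄) (L := Lm) (τ := τ) hκ₄ (by linarith) hτ0 hτ1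
  have hr₁ := hr.1
  obtain ⟨κ', hκ', hl1, hl2, hl3, hl4, hl5, hl6⟩ : ∃ κ' : ℝ, 0 < κ' ∧ κ' ≤ κ₅ ∧ κ' ≤ κ₃ ∧ κ' ≤ κm ∧ κ' ≤ δ / 8 ∧ κ' ≤ r₁ / 2 ∧
      A * κ' ≤ κn := by
    refine ⟨min (min κ₅ κ₃) (min (min κm (δ / 8)) (min (r₁ / 2) (κn / A))), by positivity,
      (min_le_left _ _).trans (min_le_left _ _), (min_le_left _ _).trans (min_le_right _ _),
      (min_le_right _ _).trans ((min_le_left _ _).trans (min_le_left _ _)),
      (min_le_right _ _).trans ((min_le_left _ _).trans (min_le_right _ _)),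
      (min_le_right _ _).trans ((min_le_right _ _).trans (min_le_left _ _)), ?_⟩
    have h1 : min (min κ₅ κ₃) (min (min κm (δ / 8)) (min (r₁ / 2) (κn / A))) ≤ κn / A :=
      (min_le_right _ _).trans ((min_le_right _ _).trans (min_le_right _ _))
    have h2 := mul_le_mul_of_nonneg_left h1 (by linarith : (0 : ℝ) ≤ A)
    rwa [mul_div_cancel₀ _ (by linarith : A ≠ 0)] at h2
  refine ⟨κ', hκ', ?_⟩
  intro u r hS hCr z hzP n hfst T i R L w hL1 hLm hst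
  have hzJ : z ∈ J := h.PJ hzP
  have horb : ∀ j, f^[j] z ∈ N ∧ infDist (f^[j] z) P < δ := fun j =>
    ⟨h.PN (it_P h j hzP), by rw [infDist_zero_of_mem (it_P h j hzP)]; exact hδ⟩
  have hr0 := hS.r0
  have hrC : r ≤ C * r := by nlinarith
  have hTn := hst.Tn
  have hE2 : ∀ x y, x ∈ η c '' ball 0 r₀ → u (f x) = 1 → ‖y - x‖ < ε₂ / 8 → y ∈ η c '' ball 0 r₀ := by
    intro x y hx hux hxy
    have h1 : ‖f x - f c‖ < κm := (hS.sp (f x) (by rw [hux]; exact one_pos)).trans (hCr.trans_le hl3)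
    have h2 := hnear2 c hc x hx h1
    apply hnhd c hc
    rw [mem_ball, dist_eq_norm]
    have h3 : ‖y - c‖ ≤ ‖y - x‖ + ‖x - c‖ := by
      have h4 : y - c = (y - x) + (x - c) := by ring
      rw [h4]
      exact norm_add_le _ _
    linarith
  have hE : ∀ x y, x ∈ η c '' ball 0 r₀ → u (f x) = 1 → ‖y - x‖ < κ₄ → y ∈ η c '' ball 0 r₀ := fun x y hx hux hxy =>
    hE2 x y hx hux (hxy.trans_le hk4)
  obtain ⟨a, k, b, W, ha0, haτ, hkT, hPL, hnohit, hcase⟩ := Hst (η c '' ball 0 r₀) u w z T hE hst.um hzJ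
    (fun j _ => horb j) (fun y hy => (hst.sz y hy).trans_le hl1) (hst.le.trans (ENNReal.ofReal_le_ofReal hLm)) hst.wz ⟨_, it_P h T hzP, hst.wz⟩
  have ha1 : a < 1 := haτ.trans_lt hτ1
  have hxJ : f^[T - k] z ∈ J := it_J h (T - k) hzJ
  obtain ⟨hum', hpos', hell', hone'⟩ := pl_um h hst.um ha1 (min_le_right _ _) hxJ hPL
  obtain ⟨w', hw'⟩ : ∃ w', w' = pb (f^[k]) W (trc a 1 w) := ⟨_, rfl⟩
  rw [← hw'] at hum' hpos' hell' hone'
  have hfT : f^[k] (f^[T - k] z) = f^[T] z := by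
    rw [← Function.iterate_add_apply, show k + (T - k) = T by omega]
  have hwz' : w' (f^[T - k] z) = 1 := hone' _ hPL.xW (by rw [hfT]; exact hst.wz)
  have hcont : ∀ x ∈ P, w' x = 1 → x ∈ W ∧ w (f^[k] x) = 1 := by
    intro x hx hx1
    obtain ⟨h1, h2⟩ := hpos' x (by rw [hx1]; exact one_pos)
    refine ⟨h1, ?_⟩
    rcases hst.um.va _ (it_P h k hx) with h3 | h3
    · rw [h3] at h2
      linarith
    · exact h3
  have hen' : ∀ x ∈ P, w' x = 1 → Ent f (η c '' ball 0 r₀) u x (n - (T - k)) := by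
    intro x hx hx1
    obtain ⟨h1, h2⟩ := hcont x hx hx1
    have h3 := ent_add (k := k) (hst.en _ (it_P h k hx) h2) (hnohit x hx h1 h2)
    rwa [show k + (n - T) = n - (T - k) by omega] at h3
  have hsz' : ∀ y, 0 < w' y → ‖y - f^[T - k] z‖ < κ₄ := by
    intro y hy
    exact (hPL.sm 0 (Nat.zero_le _) y (hpos' y hy).1).trans_le (min_le_left _ _)
  have hℓ0 : 0 ≤ (1 - τ)⁻¹ * L := by
    rw [hτi]
    positivity
  have hl' : ell ρ w' ≤ ENNReal.ofReal ((1 - τ)⁻¹ * L) := by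
    refine hell'.trans ?_
    rw [ENNReal.ofReal_mul (by rw [hτi]; positivity)]
    refine mul_le_mul' (ENNReal.ofReal_le_ofReal ?_) hst.le
    exact inv_anti₀ (by linarith) (by linarith)
  obtain ⟨O, O₁, T₁, hT₁, hT₁1, hT₁n, hPO, hzO, hOw, hOA, hAc⟩ := hst.po
  obtain ⟨hPO', hzO', hOw'⟩ := pq_pl h hst.um ha1 hPL hPO hOw (by rw [hfT]; exact hzO)
  rw [show T₁ - T + k = T₁ - (T - k) by omega] at hPO'
  rw [← hw'] at hOw'
  rcases hcase with hk0 | ⟨hkT', hzE, a₀, ha₀, ha₀W, ha₀w, ha₀u⟩ | ⟨hkT', hno, c', hc', hcW, hzc'⟩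
  · -- case (0)
    left
    right
    subst hk0
    rw [Nat.sub_self, Function.iterate_zero, id_eq] at hzO' hsz' hwz'
    rw [Nat.sub_self, Nat.sub_zero] at hPO'
    refine ⟨w', T₁, _, O₁, hum', hwz', fun y hy => (hsz' y hy).trans_le hk1, hl'.trans (ENNReal.ofReal_le_ofReal ?_), hT₁1, hT₁n,
      hPO', hzO', hOw', hOA, hAc⟩
    rw [hτi]
    nlinarith
  · -- case (1)
    have ha₀w' : w' a₀ = 1 := hone' _ ha₀W ha₀w
    have hix : i ≤ n - (T - k) := by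
      rcases hst.ix with h1 | ⟨h1, h2, -, -⟩
      · omega
      · rcases Nat.eq_zero_or_pos k with hk | hk
        · subst hk
          exfalso
          have h3 := h2 a₀ ha₀ ha₀w
          rw [ha₀u] at h3
          exact one_ne_zero h3
        · omega
    rcases H1 h hc hr R (κ := κ₄) hA hc₃ hc₃' hS hε' (by linarith) (hCr.trans_le hl4) (by linarith) hfst (by omega)
      (by omega : T - k ≤ n) hzE hum' hl' hℓ0 (by rw [hτi]; nlinarith) hwz' hsz' hk2 hen' ha₀ ha₀u ha₀w' hzP with h1 | ⟨w'', h1, h2⟩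
    · exact Or.inl (Or.inl h1)
    · right
      refine ⟨T - k, n - (T - k) + 1, w'', by omega, Or.inl ⟨?_, sta_mono h2 hk1 ?_⟩⟩
      · rw [Nat.add_sub_cancel]
        exact h1
      · rw [hτi]
        have h3 : (1 + σ / 4) * L + 5 * ε' ≤ (1 + σ / 2) * L := by nlinarith
        calc B⁻¹ * ((1 + σ / 4) * L + 5 * ε') ≤ B⁻¹ * ((1 + σ / 2) * L) :=
              mul_le_mul_of_nonneg_left h3 (inv_nonneg.2 hB0.le)
          _ = B⁻¹ * (1 + σ / 2) * L := by ring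
          _ = L * (1 + σ) := by rw [hBs]; ring
  · -- case (2)
    have hfcP : f c' ∈ P := vP h hc'
    have hbw : b < w (f^[k] (f c')) := by
      have h1 : f^[k] (f c') ∈ f^[k] '' W := mem_image_of_mem _ hcW
      rw [hPL.bh.img] at h1
      exact h1
    have hwc' : w (f^[k] (f c')) = 1 := by
      rcases hst.um.va _ (it_P h k hfcP) with h3 | h3
      · have := hPL.b0
        rw [h3] at hbw
        linarith
      · exact h3
    have hwfc : w' (f c') = 1 := hone' _ hcW hwc'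
    have hix : i ≤ n - (T - k) := by
      rcases hst.ix with h1 | ⟨h1, h2, h3, h4⟩
      · omega
      · rcases Nat.eq_zero_or_pos k with hk | hk
        · exfalso
          subst hk
          rw [Nat.sub_zero] at hzc'
          rw [Function.iterate_zero, id_eq] at hwc'
          have hff : f (f^[T - 1] z) = f^[T] z := by
            rw [← Function.iterate_succ_apply' f, show (T - 1).succ = T by omega]
          have h5 : ‖f^[T - 1] z - c‖ < ε₁ / 8 := by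
            apply hnear c hc _ h3
            rw [hff]
            have h6 : A * r ≤ A * (C * r) := mul_le_mul_of_nonneg_left hrC (by linarith)
            have h7 : A * (C * r) < A * κ' := mul_lt_mul_of_pos_left hCr (by linarith)
            linarith
          have h8 : ‖f^[T - 1] z - c'‖ < ε₁ / 8 := by
            apply hnear c' hc' _ hzc'
            rw [hff, norm_sub_rev]
            have h9 := hst.sz (f c') (by rw [hwc']; exact one_pos)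
            have h10 : κ' ≤ A * κ' := by nlinarith
            linarith
          have h11 : c' = c := by
            apply hsep c' hc' c hc
            have h12 : ‖c' - c‖ ≤ ‖f^[T - 1] z - c‖ + ‖f^[T - 1] z - c'‖ := by
              have h13 : c' - c = (f^[T - 1] z - c) - (f^[T - 1] z - c') := by ring
              rw [h13]
              exact norm_sub_le _ _
            linarith
          have h14 := h2 (f c') hfcP hwc'
          rw [h11, hS.uv] at h14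
          exact one_ne_zero h14
        · omega
    obtain ⟨hQ, w₁, hw₁⟩ := H2 (E := η c '' ball 0 r₀) (u := u) (w := w') (v := f c) (r := r) (A := A) (c₃ := c₃)
      (L := (1 - τ)⁻¹ * L) (R := R) (z := z) (a := c') (n := n) (T := T - k)
      (fun x y hx hux hxy => hE2 x y hx hux (hxy.trans_le (min_le_right _ _))) (by omega) (by omega) hum' hl' hwz'
      (fun y hy => (hsz' y hy).trans_le hk3) hen'
      (by
        rintro ⟨h1, x, hx, hx1, hx2⟩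
        obtain ⟨h3, h4⟩ := hcont x hx hx1
        exact hno ⟨h1, x, hx, h3, h4, hx2⟩) hc' hwfc hzc'
      ⟨_, O₁, T₁, by omega, hT₁1, hT₁n, hPO', hzO', hOw', hOA, hAc⟩
    right
    refine ⟨T - k - 1, n - (T - k) + 1, w₁, by omega, Or.inr ⟨?_, sta_mono hw₁ (min_le_left _ _) ?_⟩⟩
    · rw [Nat.add_sub_cancel]
      exact hQ
    · rw [hτi]
      nlinarith

end Pool.Agent.H81.AC
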