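import Pool.Agent.H81.AC.Advd

/-!
# Module Adv1 (LW): CASE (1) OF THE ROUND (A TYPE 1 EVENT)

`w` (the `w'` of the header of Adv.lean) is unimodal at `z_T`, all points of its content have first entrance time `n - T`, `z_(T - 1)` is in the chart `E` of `c`, and the content contains a point `a₀` with `u a₀ = 1`. `n` is the first entrance time of `z`. The first conclusion is the outcome, the second one is an index of a cut and the new state.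
PROOF. `T - 1 < n`, so `u (z_T) ≤ 1 / 2`. (1B) all `p ∈ P` with `u p = 1` have `w p = 1`: `ent_min`, `bst`. (1A) `p ∈ P`, `u p = 1`, `w p = 0`: `cut1`, `pf_cut`, `up_cut`; empty content: `est`.
-/

set_option autoImplicit false

open Filter Topology Metric Set MeasureTheory

namespace Pool.Agent.H81.AC

open Pool.Agent.H81.RW

open Pool.Agent.H56.TH

theorem adv1 {Λ L₁ B t C M : ℝ} (hΛ : 1 ≤ Λ) (hL₁ : 0 ≤ L₁) (hB : 0 < B) (hBt : B < t) (ht : t < 1) (hC : 1 ≤ C) :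
    ∃ A₀ c₀ : ℝ, 1 ≤ A₀ ∧ 0 < c₀ ∧ ∀ {f : ℂ → ℂ} {N J P Cr : Set ℂ} {η : ℂ → ℂ → ℂ} {r₀ δ : ℝ} {ρ : ℂ → ENNReal},
      WW f N J P Cr η r₀ δ ρ → ∀ {c : ℂ}, c ∈ Cr → ∀ {r₁ : ℝ}, RG P M r₁ →
      ∀ {u : ℂ → ℝ} {r ε A c₃ κ ℓ : ℝ} {z : ℂ} {n T : ℕ} (R : ℕ) {w : ℂ → ℝ} {a₀ : ℂ}, A₀ ≤ A → 0 < c₃ → c₃ ≤ c₀ →
      Sc P ρ (f c) u r C Λ ε → 0 < ε → ε < 1 → C * r < δ / 8 → 2 * r < r₁ →
      Fst f (η c '' ball 0 r₀) u z n → 1 ≤ T → T ≤ n → f^[T - 1] z ∈ η c '' ball 0 r₀ → UM P w → ell ρ w ≤ ENNReal.ofReal ℓ → 0 ≤ ℓ → ℓ ≤ L₁ →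
      w (f^[T] z) = 1 → (∀ y, 0 < w y → ‖y - f^[T] z‖ < κ) → κ ≤ δ / 8 →
      (∀ x ∈ P, w x = 1 → Ent f (η c '' ball 0 r₀) u x (n - T)) → a₀ ∈ P → u a₀ = 1 → w a₀ = 1 → z ∈ P →
      Tb f P (η c '' ball 0 r₀) u n ∨
        ∃ w' : ℂ → ℝ, Bs f P (η c '' ball 0 r₀) u (gapc Λ L₁ * r) (n - T) ∧
          Sta f N Cr P (η c '' ball 0 r₀) ρ (f c) u r A c₃ z n T (n - T + 1) κ (B⁻¹ * (ℓ + 5 * ε)) R w' := by
  have ht0 : 0 < t := hB.trans hBt
  obtain ⟨A₂, hA₂, Hup⟩ := up_cut (L := L₁) (t := t) hL₁ ht0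
  obtain ⟨c₂, hc₂, Hpf⟩ := pf_cut (L := L₁) (C := C) (Λ := Λ) (t := t) hL₁ hC hΛ ht0 ht
  refine ⟨A₂, c₂, hA₂, hc₂, ?_⟩
  intro f N J P Cr η r₀ δ ρ h c hc r₁ hr u r ε A c₃ κ ℓ z n T R w a₀ hA hc₃ hc₃' hS hε hε1 hCr hr₁ hfst hT hTn hE hw hl hℓ0 hℓ
    hwz hsz hκ hen ha hua hwa hzP
  have hδ := h.hδ
  have hr0 := hS.r0
  have hA2 : A₂ ≤ A := hA
  have hc2 : c₃ ≤ c₂ := hc₃'
  have hlL : ell ρ w ≤ ENNReal.ofReal L₁ := hl.trans (ENNReal.ofReal_le_ofReal hℓ)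
  have huz : u (f^[T] z) ≤ 1 / 2 := by
    have h1 := hfst.2 (T - 1) (by omega)
    rw [show T - 1 + 1 = T by omega] at h1
    by_contra h2
    exact h1 ⟨hE, not_le.1 h2⟩
  have hs8 : ∀ y, 0 < w y → ‖y - f^[T] z‖ < δ / 8 := fun y hy => (hsz y hy).trans_le hκ
  have hs4 : ∀ y, 0 < w y → ‖y - f^[T] z‖ < δ / 4 := fun y hy => (hs8 y hy).trans_le (by linarith)
  by_cases hall : ∀ p ∈ P, u p = 1 → w p = 1
  · -- (1B)
    left
    exact ⟨n - T, by omega, fun p hp hup => hen p hp (hall p hp hup)⟩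
  · -- (1A)
    push Not at hall
    obtain ⟨p, hp, hup, hwp1⟩ := hall
    have hwp : w p = 0 := (hw.va p hp).resolve_right hwp1
    obtain ⟨w', O, hw', hwz', hpos, hcon, hlen, hO1, hO2, hO3, hO4, hzO, hO5, hO6, _, hO7, hO8, hO9⟩ :=
      cut1 h.me h.Pc hS hε hε1 hΛ hw hp hup hwp ha hua hwa hwz huz hB hBt ht
    obtain ⟨Kw, hKw⟩ := hw.lip
    have hup' : ∀ x, t ≤ w x → ‖x - f c‖ ≤ A * r := fun x hx =>
      (Hup h hS w hw hlL a₀ p (f^[T] z) hs4 ha hua hwa hp hup hwp x hx).trans (mul_le_mul_of_nonneg_right hA2 hr0.le)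
    have hcl : closure O ⊆ {x | t ≤ w x} :=
      closure_minimal (fun x hx => (hO6 x hx).le) (isClosed_le continuous_const hKw.continuous)
    have hOA : O ⊆ closedBall (f c) (A * r) := fun x hx => by
      rw [mem_closedBall, dist_eq_norm]
      exact hup' x (hO6 x hx).le
    have hAc : Ac P (f c) r A c₃ (frontier O) := by
      refine ⟨fun x hx => ?_, fun x hx q hq => ?_⟩
      · rw [mem_closedBall, dist_eq_norm]
        exact hup' x (hcl (frontier_subset_closure hx))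
      · exact (mul_le_mul_of_nonneg_right hc2 hr0.le).trans
          (Hpf h hS hε hε1 (by linarith) w hw hlL a₀ (f^[T] z) hs8 ha hua hwa hwz huz x (hO8 x hx) q hq)
    right
    refine ⟨w', ⟨a₀, ha, hua, fun a' ha' hd => ?_⟩, ?_⟩
    · apply hen a' ha'
      rcases hw.va a' ha' with h1 | h1
      · exfalso
        have h2 := gap1 h hS hε hε1 hΛ (by linarith) hw hL₁ hlL hs4 ha hua hwa hwz huz ha' h1
        linarith
      · exact h1
    · have hell : ell ρ w' ≤ ENNReal.ofReal (B⁻¹ * (ℓ + 5 * ε)) := by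
        have h1 : ENNReal.ofReal B * ell ρ w' ≤ ENNReal.ofReal (ℓ + 5 * ε) := by
          refine hlen.trans ?_
          rw [ENNReal.ofReal_add hℓ0 (by positivity)]
          exact add_le_add hl le_rfl
        have h2 : ell ρ w' = ENNReal.ofReal B⁻¹ * (ENNReal.ofReal B * ell ρ w') := by
          rw [← mul_assoc, ← ENNReal.ofReal_mul (inv_nonneg.2 hB.le), inv_mul_cancel₀ hB.ne', ENNReal.ofReal_one, one_mul]
        rw [h2, ENNReal.ofReal_mul (inv_nonneg.2 hB.le)]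
        exact mul_le_mul_right h1 _
      refine ⟨hTn, hw', hwz', fun y hy => hsz y (hpos y hy), hell, fun x hx hx1 => hen x hx (hcon x hx hx1).1,
        Or.inr ⟨rfl, fun x hx hx1 => (hcon x hx hx1).2, hE, ?_⟩,
        ⟨O, O, T, le_rfl, hT, by omega, ?_, hzO, hO5, hOA, hAc⟩⟩
      · exact hup' _ (by rw [hwz]; exact ht.le)
      · rw [Nat.sub_self]
        exact pq_mono (pq_zero hO1 hO2 hO3 hO4) (Nat.zero_le _)

end Pool.Agent.H81.AC
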