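import Pool.Agent.H81.RW.Cutl
import Pool.Agent.H81.AC.Siz
import Pool.Agent.H81.RW.Wka

/-!
# Module Cuta (LW): ONE CUT

`Sc P ρ v u r C Λ ε`: the data at one scale: `u` unimodal, near minimal, Lipschitz with constant `C / r`, support in `ball v (C r)`, content radius `r`.
`hi_um`. PROOF. `tnr` with `a = 1 / 2`, `b = 1`, `δ₁ = ε` (`hlow` from `Sc.lo`, `v ∈ P`). `lo_um`: `tnr` with `a = 0`, `b = 1 / 4`.
`cut1`. PROOF. `uu = trc (1 / 2) 1 u` (unimodal, `uu p = 1`, `uu a₀ = 1`, `uu ζ = 0` (`trc_zero`), length `≤ Λ + 4 ε`), `q y = max (w y - uu y) 0`. `cutl` with `u := uu`, `v := a₀`, `p`, `z := ζ`, `ε := ε`, `B`: levels `0 ≤ a < b ≤ B`, `w'' = trc a b (exf q ζ)`, `w'' ζ = 1`, `ofReal B * ell ρ w'' + ofReal (Λ - ε) ≤ ell ρ w + ell ρ uu`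
(`hlow`: `{0 < uu} ⊆ {0 < u}`, `Sc.lo`), hence `ofReal B * ell ρ w'' ≤ ell ρ w + ofReal (5 ε)` (`ENNReal` subtraction: `Λ - ε ≥ 0`, finite). Contents: let `x ∈ P`, `w'' x = 1`: then `x ∈ oc q ζ s` for some `s > 0` (`exf_gt`, `0 < w'' x`), so `0 < w x`, `w x = 1`; if `u x = 1` then `oc_out` (with `v := x`, `p := p`) gives `x ∉ oc q ζ s`: contradiction; so `u x = 0`.
`O = oc q ζ t`: open, preconnected, full (`oc_open`, `oc_pre`, `oc_full`), `ζ ∈ O` (`oc_mem`: `q ζ = 1 > t`), `O ⊆ {t < w}` (`oc_out`), so bounded; for `y ∈ O`: `exf q ζ y ≥ t > B ≥ b` (`exf_gt`), so `w'' y = 1`. Frontier in `{q = t}` (`oc_front`), `t > 0`: `w - uu = t`. `u a = 1 → a ∉ O`: `oc_out`. Preconnected frontier: `wka`.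
The level `s = 1 / 2 + 3 (1 - t) / 32` (`uu > s'` is `u > 1 / 2 + s' / 2`). (i) there is `x₁ ∈ frontier O` with `uu x₁ > (1 - t) / 4`: otherwise `w = t + uu ≤ t + (1 - t) / 4` on the frontier, so the preconnected set `{t + (1 - t) / 4 < w}` (contains `ζ ∈ O`) misses the frontier, so it is contained in `O` (`sub_of_meets` in Cutl, or `IsPreconnected.subset_of_...`), `a₀ ∈ O`: contradiction to `oc_out`.
(ii) there is `x₂ ∈ frontier O` with `uu x₂ ≤ (1 - t) / 8`: otherwise `frontier O ⊆ {(1 - t) / 8 < uu}`, which is full, so `ζ ∈ O ⊆ {(1 - t) / 8 < uu}`, but `uu ζ = 0`. So the preconnected set `frontier O` meets the open set `{s < u}` and its complement, so it meets `frontier {y | s < u y}` (`IsPreconnected` with `frontier`: `nonempty_frontier_inter` or by hand).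
-/

set_option autoImplicit false

open Filter Topology Metric Set MeasureTheory

namespace Pool.Agent.H81.AC

open Pool.Agent.H81.RW

open Pool.Agent.H56.TH

/-- the data at one scale -/
structure Sc (P : Set ℂ) (ρ : ℂ → ENNReal) (v : ℂ) (u : ℂ → ℝ) (r C Λ ε : ℝ) : Prop where
  r0 : 0 < r
  C1 : 1 ≤ C
  vP : v ∈ P
  um : UM P u
  uv : u v = 1
  lip : ∀ x y, |u x - u y| ≤ C / r * ‖x - y‖
  sp : ∀ y, 0 < u y → ‖y - v‖ < C * r
  cr : CR P v u r
  le : ell ρ u ≤ ENNReal.ofReal (Λ + ε)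
  lo : ∀ x ∈ P, ∀ w : ℂ → ℝ, UM P w → w x = 1 → (∀ y, 0 < w y → 0 < u y) → ENNReal.ofReal (Λ - ε) ≤ ell ρ w

variable {P : Set ℂ} {ρ : ℂ → ENNReal} {v : ℂ} {u : ℂ → ℝ} {r C Λ ε : ℝ}

theorem hi_um (h : Sc P ρ v u r C Λ ε) (hε : 0 < ε) (hΛ : 1 ≤ Λ) : UM P (trc (1 / 2) 1 u) ∧
    ell ρ (trc (1 / 2) 1 u) ≤ ENNReal.ofReal (Λ + 4 * ε) := by
  obtain ⟨_, h1, _, h2⟩ := tnr (ρ := ρ) (δ₁ := ε) h.um h.uv (by linarith) hε hε.le h.le
    (fun w hw hwv hs => h.lo v h.vP w hw hwv hs) (by norm_num : (0 : ℝ) ≤ 1 / 2) (by norm_num) le_rfl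
  exact ⟨h1, h2.trans (ENNReal.ofReal_le_ofReal (by norm_num; linarith))⟩

theorem lo_um (h : Sc P ρ v u r C Λ ε) (hε : 0 < ε) (hΛ : 1 ≤ Λ) : UM P (trc 0 (1 / 4) u) ∧
    ell ρ (trc 0 (1 / 4) u) ≤ ENNReal.ofReal (Λ + 8 * ε) := by
  obtain ⟨_, h1, _, h2⟩ := tnr (ρ := ρ) (δ₁ := ε) h.um h.uv (by linarith) hε hε.le h.le
    (fun w hw hwv hs => h.lo v h.vP w hw hwv hs) (le_refl (0 : ℝ)) (by norm_num : (0 : ℝ) < 1 / 4) (by norm_num)
  exact ⟨h1, h2.trans (ENNReal.ofReal_le_ofReal (by norm_num; linarith))⟩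

theorem cut1 (hρ : Measurable ρ) (hP : IsCompact P) (h : Sc P ρ v u r C Λ ε) (hε : 0 < ε) (hε1 : ε < 1) (hΛ : 1 ≤ Λ)
    {w : ℂ → ℝ} (hw : UM P w) {p a₀ ζ : ℂ} (hpP : p ∈ P) (hp : u p = 1) (hwp : w p = 0) (ha : a₀ ∈ P) (hua : u a₀ = 1)
    (hwa : w a₀ = 1) (hwz : w ζ = 1) (huz : u ζ ≤ 1 / 2) {B t : ℝ} (hB : 0 < B) (hBt : B < t) (ht : t < 1) :
    ∃ (w' : ℂ → ℝ) (O : Set ℂ), UM P w' ∧ w' ζ = 1 ∧ (∀ y, 0 < w' y → 0 < w y) ∧ (∀ x ∈ P, w' x = 1 → w x = 1 ∧ u x = 0) ∧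
      ENNReal.ofReal B * ell ρ w' ≤ ell ρ w + ENNReal.ofReal (5 * ε) ∧
      IsOpen O ∧ IsPreconnected O ∧ Full O ∧ Bornology.IsBounded O ∧ ζ ∈ O ∧ (∀ y ∈ O, w' y = 1) ∧ (∀ y ∈ O, t < w y) ∧
      (∀ a, u a = 1 → a ∉ O) ∧ IsPreconnected (frontier O) ∧ (∀ y ∈ frontier O, w y - trc (1 / 2) 1 u y = t) ∧
      ∃ s ∈ Icc (1 / 2 : ℝ) (3 / 4), (frontier O ∩ frontier {y | s < u y}).Nonempty := by
  obtain ⟨hUU, hUL⟩ := hi_um h hε hΛ
  have hB1 : B < 1 := hBt.trans ht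
  have ht0 : 0 < t := hB.trans hBt
  have h12 : (1 / 2 : ℝ) < 1 := by norm_num
  obtain ⟨uu, huu⟩ : ∃ uu : ℂ → ℝ, uu = trc (1 / 2) 1 u := ⟨_, rfl⟩
  rw [← huu] at hUU hUL
  have one_of : ∀ y, u y = 1 → uu y = 1 := fun y hy => by
    rw [huu]
    exact trc_one h12 (by rw [hy])
  have uup : uu p = 1 := one_of p hp
  have uua : uu a₀ = 1 := one_of a₀ hua
  have uuz : uu ζ = 0 := by
    rw [huu]
    exact trc_zero h12 huz
  have pos_of : ∀ y, 0 < uu y → 0 < u y := by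
    intro y hy
    have h3 : y ∈ {x | (0 : ℝ) < trc (1 / 2) 1 u x} := by
      rw [← huu]
      exact hy
    rw [trc_gt h12 le_rfl zero_lt_one] at h3
    have h4 : 1 / 2 + 0 * (1 - 1 / 2) < u y := h3
    linarith
  have hcw : Continuous w := ul_cont (ul_um hw)
  have hcu : Continuous uu := ul_cont (ul_um hUU)
  have hcq : Continuous fun y => max (w y - uu y) 0 := (hcw.sub hcu).max continuous_const
  obtain ⟨a, b, ha0, hab, hbB, hU, hV1, -, hV3, hL⟩ := cutl hρ hP hw hUU (v := a₀) (p := p) (z := ζ) uua hpP uup hwp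
    hwz uuz (Λ := Λ) (ε := ε) (fun w' h1 h2 h3 => h.lo p hpP w' h1 h2 fun y hy => pos_of y (h3 y hy)) hB hB1.le
  have hqz : max (w ζ - uu ζ) 0 = 1 := by
    rw [hwz, uuz, sub_zero]
    exact max_eq_left zero_le_one
  have hOo := oc_open hcq ζ t
  have hOf := oc_full hcq ζ t
  have hOp := oc_pre hcq ζ t
  have hOsub : oc (fun y => max (w y - uu y) 0) ζ t ⊆ {y | t < w y} :=
    (oc_out hw hUU (z := ζ) uua uup hwp ht0 ht).2
  have hOz : ζ ∈ oc (fun y => max (w y - uu y) 0) ζ t := by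
    rw [oc_mem]
    show t < max (w ζ - uu ζ) 0
    rw [hqz]
    exact ht
  have hOb : Bornology.IsBounded (oc (fun y => max (w y - uu y) 0) ζ t) := by
    refine hw.cs.isCompact.isBounded.subset fun y hy => ?_
    have h1 : t < w y := hOsub hy
    exact subset_tsupport _ (ht0.trans h1).ne'
  have hfr : ∀ y ∈ frontier (oc (fun y => max (w y - uu y) 0) ζ t), w y - uu y = t := by
    intro y hy
    have h1 : max (w y - uu y) 0 = t := oc_front hcq ζ t hy
    rcases max_choice (w y - uu y) 0 with h2 | h2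
    · rw [← h2]
      exact h1
    · rw [h2] at h1
      exact absurd h1 ht0.ne
  refine ⟨trc a b (exf (fun y => max (w y - uu y) 0) ζ), oc (fun y => max (w y - uu y) 0) ζ t, hU, hV1, hV3, ?_, ?_,
    hOo, hOp, hOf, hOb, hOz, ?_, hOsub, ?_, wka hOo hOb hOp hOf, ?_, ?_⟩
  · intro x hx hx1
    have hx0 : 0 < trc a b (exf (fun y => max (w y - uu y) 0) ζ) x := by
      rw [hx1]
      exact zero_lt_one
    have hwx : 0 < w x := hV3 x hx0
    refine ⟨(hw.va x hx).resolve_left hwx.ne', ?_⟩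
    rcases h.um.va x hx with h1 | h1
    · exact h1
    · exfalso
      have h3 : x ∈ {y | (0 : ℝ) < trc a b (exf (fun y => max (w y - uu y) 0) ζ) y} := hx0
      rw [trc_gt hab le_rfl zero_lt_one] at h3
      have h4 : a + 0 * (b - a) < exf (fun y => max (w y - uu y) 0) ζ x := h3
      obtain ⟨s, hs, hxs⟩ := (exf_gt ha0).1 (show a < exf (fun y => max (w y - uu y) 0) ζ x by linarith)
      have h5 : s < max (w ζ - uu ζ) 0 := oc_lt hxs
      rw [hqz] at h5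
      exact (oc_out hw hUU (one_of x h1) uup hwp (ha0.trans_lt hs) h5).1 hxs
  · have hfin : ENNReal.ofReal (Λ - ε) ≠ ⊤ := ENNReal.ofReal_ne_top
    refine (ENNReal.add_le_add_iff_right hfin).1 (hL.trans ?_)
    have h1 : ENNReal.ofReal (Λ + 4 * ε) = ENNReal.ofReal (5 * ε) + ENNReal.ofReal (Λ - ε) := by
      rw [← ENNReal.ofReal_add (by positivity) (by linarith)]
      congr 1
      ring
    rw [add_assoc, ← h1]
    exact add_le_add le_rfl hUL
  · intro y hy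
    refine trc_one hab (hbB.trans ?_)
    exact ((exf_gt hB.le).2 ⟨t, hBt, hy⟩).le
  · intro y hy
    exact (oc_out hw hUU (one_of y hy) uup hwp ht0 ht).1
  · intro y hy
    have h1 := hfr y hy
    rw [huu] at h1
    exact h1
  · refine ⟨1 / 2 + 3 * (1 - t) / 32, ⟨by linarith, by linarith⟩, ?_⟩
    have hV : {y | 1 / 2 + 3 * (1 - t) / 32 < u y} = {y | 3 * (1 - t) / 16 < uu y} := by
      rw [huu, trc_gt h12 (by linarith) (by linarith)]
      have e : (1 / 2 : ℝ) + 3 * (1 - t) / 16 * (1 - 1 / 2) = 1 / 2 + 3 * (1 - t) / 32 := by ring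
      rw [e]
    rw [hV]
    by_contra hcon
    have hdis : Disjoint (frontier (oc (fun y => max (w y - uu y) 0) ζ t)) (frontier {y | 3 * (1 - t) / 16 < uu y}) := by
      rw [Set.disjoint_iff_inter_eq_empty]
      exact Set.not_nonempty_iff_eq_empty.1 hcon
    have hx1 : ∃ x ∈ frontier (oc (fun y => max (w y - uu y) 0) ζ t), (1 - t) / 4 < uu x := by
      by_contra hno
      push Not at hno
      have h1 : IsPreconnected {y | t + (1 - t) / 4 < w y} := hw.co _ (by linarith) (by linarith)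
      have h2 : {y | t + (1 - t) / 4 < w y} ⊆ oc (fun y => max (w y - uu y) 0) ζ t := by
        refine sub_of_meets hOo h1 ⟨ζ, ?_, hOz⟩ ?_
        · show t + (1 - t) / 4 < w ζ
          rw [hwz]
          linarith
        · rw [Set.disjoint_left]
          intro y hy hyf
          have h3 := hfr y hyf
          have h4 := hno y hyf
          have h5 : t + (1 - t) / 4 < w y := hy
          linarith
      refine (oc_out hw hUU uua uup hwp ht0 ht).1 (h2 ?_)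
      show t + (1 - t) / 4 < w a₀
      rw [hwa]
      linarith
    have hx2 : ∃ x ∈ frontier (oc (fun y => max (w y - uu y) 0) ζ t), uu x ≤ (1 - t) / 8 := by
      by_contra hno
      push Not at hno
      have h1 := hUU.fu ((1 - t) / 8) (by linarith) (by linarith) _ hOo hOb (fun y hy => hno y hy)
      have h2 : (1 - t) / 8 < uu ζ := h1 hOz
      rw [uuz] at h2
      linarith
    obtain ⟨x₁, hx1f, hx1⟩ := hx1
    obtain ⟨x₂, hx2f, hx2⟩ := hx2
    have h6 := sub_of_meets (O := {y | 3 * (1 - t) / 16 < uu y}) (isOpen_lt continuous_const hcu)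
      (wka hOo hOb hOp hOf) ⟨x₁, hx1f, show 3 * (1 - t) / 16 < uu x₁ by linarith⟩ hdis
    have h7 : 3 * (1 - t) / 16 < uu x₂ := h6 hx2f
    linarith

end Pool.Agent.H81.AC
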