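import Pool.Agent.H81.AC.Cuta

/-!
# Module Pfar (LW): DISTANCES FROM `P`

`gapc Λ L` is the constant of the gap lemma.
All by `tc'` (Tc.lean: `z ∈ P`, one of `w z`, `w y` is `≤ a`, one of them is `≥ b`, `b ≤ w x`, `‖x - z‖ < δ`: `‖x - z‖ ≤ exp (4 L / (b - a)) ‖y - z‖`).
`za_far`. `a ∈ P`, `u a = 1`, `u ζ ≤ 1 / 2`: `‖ζ - a‖ ≥ exp (-8 (Λ + 1)) r / 2`. PROOF. `tc'` for `u`, `z := a`, `y := ζ`, levels `1 / 2`, `1`, `L = Λ + 1`, `x := v` and `x := y₀` (`CR`: `y₀ ∈ P`, `u y₀ = 1`, `‖y₀ - v‖ = r`): `r / 2 ≤ max ‖v - a‖ ‖y₀ - a‖ ≤ exp (8 (Λ + 1)) ‖ζ - a‖` (all these points are in the support, `C r < δ / 4`).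
`gap1`. `w` unimodal, length `≤ L`, `w ζ = 1`, `w a = 1`, `u a = 1`, `a ∈ P`, `u ζ ≤ 1 / 2`; `a' ∈ P`, `w a' = 0`: `‖a' - a‖ ≥ gapc Λ L * r`. PROOF. `tc'` for `w`, `z := a'`, `y := a`, `x := ζ`, levels `0`, `1`: `‖ζ - a'‖ ≤ exp (4 L) ‖a - a'‖` (if `‖ζ - a'‖ < δ`; otherwise `‖a' - a‖ ≥ δ - ‖ζ - a‖ ≥ δ / 2 ≥ r`), so `‖ζ - a‖ ≤ (exp (4 L) + 1) ‖a - a'‖`; `za_far`.
`pf_cut`. `x` with `w x - trc (1 / 2) 1 u x = t`: distance from `P` at least `c₃ r`. PROOF. Let `uu = trc (1 / 2) 1 u`, Lipschitz with constant `2 C / r`; `uu x = w x - t ≤ 1 - t`. `p ∈ P`. (1) `u p = 1`: `uu p - uu x ≥ t`, so `‖x - p‖ ≥ t r / (2 C)`. (2) `u p = 0`, `w p = 0`: `w x ≥ t`: `tc'` for `w`, `z := p`, `y := x`, levels `0`, `t`, with `x := a₀` and `x := ζ` (both have `w = 1`):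
`max ‖a₀ - p‖ ‖ζ - p‖ ≤ exp (4 L / t) ‖x - p‖` and the maximum is `≥ ‖ζ - a₀‖ / 2 ≥ exp (-8 (Λ + 1)) r / 4`. (3) `u p = 0`, `w p = 1`: if `uu x ≥ (1 - t) / 2`: `‖x - p‖ ≥ (1 - t) r / (4 C)` (`uu p = 0`); if `uu x < (1 - t) / 2`: `w x < t + (1 - t) / 2 = 1 - (1 - t) / 2`: `tc'`, levels `1 - (1 - t) / 2`, `1`, the same as (2).
(If one of `‖a₀ - p‖`, `‖ζ - p‖` is `≥ δ`, then `‖x - p‖ ≥ δ / 2`, because all points of `{0 < w}` are within `δ / 4` of each other.)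
`up_cut`. `{t < w} ⊆ closedBall v (A r)`. PROOF. `tc'` for `w`, `z := a₀`, `y := p` (`u p = 1`, `w p = 0`, `‖p - a₀‖ ≤ 2 r` by `CR`), levels `0`, `t`: `‖x - a₀‖ ≤ exp (4 L / t) 2 r`.
-/

set_option autoImplicit false

open Filter Topology Metric Set MeasureTheory

namespace Pool.Agent.H81.AC

open Pool.Agent.H81.RW

open Pool.Agent.H56.TH

/-- the constant of the gap lemma -/
noncomputable def gapc (Λ L : ℝ) : ℝ := Real.exp (-(8 * (Λ + 1))) / (2 * (Real.exp (4 * L) + 1))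

variable {f : ℂ → ℂ} {N J P Cr : Set ℂ} {η : ℂ → ℂ → ℂ} {r₀ δ : ℝ} {ρ : ℂ → ENNReal} {v : ℂ} {u : ℂ → ℝ} {r C Λ ε : ℝ}

theorem gapc_pos (Λ L : ℝ) : 0 < gapc Λ L := by
  unfold gapc
  positivity

theorem gapc_le_one {Λ L : ℝ} (hΛ : 1 ≤ Λ) : gapc Λ L ≤ 1 := by
  unfold gapc
  rw [div_le_one (by positivity)]
  have h1 : Real.exp (-(8 * (Λ + 1))) ≤ 1 := Real.exp_le_one_iff.2 (by linarith)
  have h2 : 0 < Real.exp (4 * L) := Real.exp_pos _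
  linarith

theorem za_far (h : WW f N J P Cr η r₀ δ ρ) (hS : Sc P ρ v u r C Λ ε) (hε : 0 < ε) (hε1 : ε < 1) (hΛ : 1 ≤ Λ)
    (hr : C * r < δ / 4) {a ζ : ℂ} (ha : a ∈ P) (hua : u a = 1) (huz : u ζ ≤ 1 / 2) :
    Real.exp (-(8 * (Λ + 1))) * r / 2 ≤ ‖ζ - a‖ := by
  have hl : ell ρ u ≤ ENNReal.ofReal (Λ + 1) := hS.le.trans (ENNReal.ofReal_le_ofReal (by linarith))
  have hav : ‖a - v‖ < δ / 4 := (hS.sp a (by rw [hua]; norm_num)).trans hr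
  have key : ∀ x, u x = 1 → ‖x - a‖ ≤ Real.exp (8 * (Λ + 1)) * ‖ζ - a‖ := by
    intro x hx
    have hxv : ‖x - v‖ < δ / 4 := (hS.sp x (by rw [hx]; norm_num)).trans hr
    have hxa : ‖x - a‖ < δ := by
      have h1 : ‖x - a‖ ≤ ‖x - v‖ + ‖a - v‖ := by
        have h2 : x - a = (x - v) - (a - v) := by ring
        rw [h2]
        exact norm_sub_le _ _
      have := h.hδ
      linarith
    have h3 := tc' h (ul_um hS.um) (a := 1 / 2) (b := 1) (by norm_num) (by norm_num) (by linarith : (0 : ℝ) ≤ Λ + 1) hl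
      (z := a) (x := x) (y := ζ) ha (Or.inr huz) (Or.inl hua.ge) hx.ge hxa
    have h4 : 4 * ((Λ + 1) / (1 - 1 / 2)) = 8 * (Λ + 1) := by ring
    rwa [h4] at h3
  obtain ⟨⟨y₀, hy₀, hy1, hyr⟩, _⟩ := hS.cr
  have h1 := key v hS.uv
  have h2 := key y₀ hy1
  have h3 : r ≤ ‖y₀ - a‖ + ‖v - a‖ := by
    rw [← hyr]
    have h4 : y₀ - v = (y₀ - a) - (v - a) := by ring
    rw [h4]
    exact norm_sub_le _ _
  have h5 : Real.exp (-(8 * (Λ + 1))) * Real.exp (8 * (Λ + 1)) = 1 := by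
    rw [← Real.exp_add, neg_add_cancel, Real.exp_zero]
  have h6 : 0 < Real.exp (-(8 * (Λ + 1))) := Real.exp_pos _
  have h7 : r ≤ 2 * (Real.exp (8 * (Λ + 1)) * ‖ζ - a‖) := by linarith
  have h8 := mul_le_mul_of_nonneg_left h7 h6.le
  have h9 : Real.exp (-(8 * (Λ + 1))) * (2 * (Real.exp (8 * (Λ + 1)) * ‖ζ - a‖)) = 2 * ‖ζ - a‖ := by
    calc Real.exp (-(8 * (Λ + 1))) * (2 * (Real.exp (8 * (Λ + 1)) * ‖ζ - a‖))
        = 2 * ((Real.exp (-(8 * (Λ + 1))) * Real.exp (8 * (Λ + 1))) * ‖ζ - a‖) := by ring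
      _ = 2 * ‖ζ - a‖ := by rw [h5, one_mul]
  rw [h9] at h8
  linarith

theorem gap1 (h : WW f N J P Cr η r₀ δ ρ) (hS : Sc P ρ v u r C Λ ε) (hε : 0 < ε) (hε1 : ε < 1) (hΛ : 1 ≤ Λ)
    (hr : C * r < δ / 4) {w : ℂ → ℝ} (hw : UM P w) {L : ℝ} (hL : 0 ≤ L) (hl : ell ρ w ≤ ENNReal.ofReal L) {a ζ a' : ℂ}
    (hs : ∀ y, 0 < w y → ‖y - ζ‖ < δ / 4) (ha : a ∈ P) (hua : u a = 1) (hwa : w a = 1) (hwz : w ζ = 1) (huz : u ζ ≤ 1 / 2)
    (ha' : a' ∈ P) (hwa' : w a' = 0) : gapc Λ L * r ≤ ‖a' - a‖ := by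
  have hr0 := hS.r0
  have hC1 := hS.C1
  have hrδ : r < δ / 4 := lt_of_le_of_lt (by nlinarith) hr
  rcases lt_or_ge ‖ζ - a'‖ δ with hlt | hge
  · have h1 := tc' h (ul_um hw) (a := 0) (b := 1) le_rfl one_pos hL hl (z := a') (x := ζ) (y := a) ha' (Or.inl hwa'.le)
      (Or.inr hwa.ge) hwz.ge hlt
    rw [sub_zero, div_one] at h1
    have h2 : ‖ζ - a‖ ≤ ‖ζ - a'‖ + ‖a' - a‖ := by
      have h3 : ζ - a = (ζ - a') + (a' - a) := by ring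
      rw [h3]
      exact norm_add_le _ _
    have h4 := za_far h hS hε hε1 hΛ hr ha hua huz
    rw [norm_sub_rev a a'] at h1
    have h5 : 0 < Real.exp (4 * L) := Real.exp_pos _
    unfold gapc
    rw [div_mul_eq_mul_div, div_le_iff₀ (by positivity)]
    nlinarith
  · have h1 : ‖a - ζ‖ < δ / 4 := hs a (by rw [hwa]; norm_num)
    have h2 : ‖ζ - a'‖ ≤ ‖a - ζ‖ + ‖a' - a‖ := by
      have h3 : ζ - a' = -((a - ζ) + (a' - a)) := by ring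
      rw [h3, norm_neg]
      exact norm_add_le _ _
    have h4 := gapc_le_one (L := L) hΛ
    have h5 : gapc Λ L * r ≤ 1 * r := mul_le_mul_of_nonneg_right h4 hr0.le
    linarith

/-- the truncation is Lipschitz -/
theorem trc_lip2 (hS : Sc P ρ v u r C Λ ε) (x y : ℂ) :
    |trc (1 / 2) 1 u x - trc (1 / 2) 1 u y| ≤ 2 * (C / r * ‖x - y‖) := by
  have h1 : |trc (1 / 2) 1 u x - trc (1 / 2) 1 u y| ≤ |(u x - 1 / 2) / (1 - 1 / 2) - (u y - 1 / 2) / (1 - 1 / 2)| := by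
    unfold trc
    refine (abs_max_sub_max_le_max 0 _ 0 _).trans ?_
    rw [sub_self, abs_zero]
    refine max_le (abs_nonneg _) ?_
    refine (abs_min_sub_min_le_max 1 _ 1 _).trans ?_
    rw [sub_self, abs_zero]
    exact max_le (abs_nonneg _) le_rfl
  refine h1.trans ?_
  have h2 : (u x - 1 / 2) / (1 - 1 / 2) - (u y - 1 / 2) / (1 - 1 / 2) = 2 * (u x - u y) := by ring
  rw [h2, abs_mul, abs_two]
  exact mul_le_mul_of_nonneg_left (hS.lip x y) (by norm_num)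

theorem pf_cut {L C Λ t : ℝ} (hL : 0 ≤ L) (hC : 1 ≤ C) (hΛ : 1 ≤ Λ) (ht : 0 < t) (ht1 : t < 1) : ∃ c₃ : ℝ, 0 < c₃ ∧
    ∀ {f : ℂ → ℂ} {N J P Cr : Set ℂ} {η : ℂ → ℂ → ℂ} {r₀ δ : ℝ} {ρ : ℂ → ENNReal} {v : ℂ} {u : ℂ → ℝ} {r ε : ℝ},
    WW f N J P Cr η r₀ δ ρ → Sc P ρ v u r C Λ ε → 0 < ε → ε < 1 → C * r < δ / 4 → ∀ w : ℂ → ℝ, UM P w →
    ell ρ w ≤ ENNReal.ofReal L → ∀ a₀ ζ : ℂ, (∀ y, 0 < w y → ‖y - ζ‖ < δ / 8) → a₀ ∈ P → u a₀ = 1 → w a₀ = 1 → w ζ = 1 →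
    u ζ ≤ 1 / 2 → ∀ x, w x - trc (1 / 2) 1 u x = t → ∀ p ∈ P, c₃ * r ≤ ‖x - p‖ := by
  obtain ⟨e₀, he₀⟩ : ∃ e₀, e₀ = Real.exp (-(8 * (Λ + 1))) := ⟨_, rfl⟩
  obtain ⟨e₁, he₁⟩ : ∃ e₁, e₁ = Real.exp (4 * (L / t)) := ⟨_, rfl⟩
  obtain ⟨e₂, he₂⟩ : ∃ e₂, e₂ = Real.exp (4 * (L / ((1 - t) / 2))) := ⟨_, rfl⟩
  have h0 : 0 < e₀ := by rw [he₀]; exact Real.exp_pos _
  have h1 : 0 < e₁ := by rw [he₁]; exact Real.exp_pos _
  have h2 : 0 < e₂ := by rw [he₂]; exact Real.exp_pos _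
  have hC0 : 0 < C := by linarith
  have hs0 : 0 < 1 - t := by linarith
  obtain ⟨c, hc⟩ : ∃ c, c = min (min (t / (2 * C)) ((1 - t) / (4 * C))) (min 1 (min (e₀ / (4 * e₁)) (e₀ / (4 * e₂)))) := ⟨_, rfl⟩
  have hc0 : 0 < c := by
    rw [hc]
    refine lt_min (lt_min (by positivity) (by positivity)) (lt_min one_pos (lt_min (by positivity) (by positivity)))
  have hc1 : c ≤ t / (2 * C) := by rw [hc]; exact (min_le_left _ _).trans (min_le_left _ _)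
  have hc2 : c ≤ (1 - t) / (4 * C) := by rw [hc]; exact (min_le_left _ _).trans (min_le_right _ _)
  have hc3 : c ≤ 1 := by rw [hc]; exact (min_le_right _ _).trans (min_le_left _ _)
  have hc4 : c ≤ e₀ / (4 * e₁) := by rw [hc]; exact (min_le_right _ _).trans ((min_le_right _ _).trans (min_le_left _ _))
  have hc5 : c ≤ e₀ / (4 * e₂) := by rw [hc]; exact (min_le_right _ _).trans ((min_le_right _ _).trans (min_le_right _ _))
  refine ⟨c, hc0, ?_⟩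
  intro f N J P Cr η r₀ δ ρ v u r ε h hS hε hε1 hr w hw hl a₀ ζ hs ha hua hwa hwz huz x hx p hp
  have hr0 := hS.r0
  have hrδ : r < δ / 4 := lt_of_le_of_lt (by nlinarith) hr
  have hδ := h.hδ
  have hzf := za_far h hS hε hε1 hΛ hr ha hua huz
  rw [← he₀] at hzf
  have ht0 : 0 ≤ trc (1 / 2) 1 u x := le_max_left _ _
  have ha₀ζ : ‖a₀ - ζ‖ < δ / 8 := hs a₀ (by rw [hwa]; norm_num)
  have hlip := trc_lip2 hS
  -- from two distances to the conclusion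
  have fin : ∀ e : ℝ, 0 < e → c ≤ e₀ / (4 * e) → ‖a₀ - p‖ ≤ e * ‖x - p‖ → ‖ζ - p‖ ≤ e * ‖x - p‖ → c * r ≤ ‖x - p‖ := by
    intro e he hce h3 h4
    have h5 : ‖ζ - a₀‖ ≤ ‖ζ - p‖ + ‖a₀ - p‖ := by
      have h6 : ζ - a₀ = (ζ - p) - (a₀ - p) := by ring
      rw [h6]
      exact norm_sub_le _ _
    have h7 : c * r ≤ e₀ / (4 * e) * r := mul_le_mul_of_nonneg_right hce hr0.le
    refine h7.trans ?_
    rw [div_mul_eq_mul_div, div_le_iff₀ (by positivity)]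
    linarith
  have big : ∀ q : ℂ, ‖q - ζ‖ < δ / 8 → δ ≤ ‖q - p‖ → 0 < w x → c * r ≤ ‖x - p‖ := by
    intro q hq hqp hwx
    have h3 := hs x hwx
    have h4 : ‖q - p‖ ≤ ‖q - ζ‖ + ‖x - ζ‖ + ‖x - p‖ := by
      have h5 : q - p = (q - ζ) - (x - ζ) + (x - p) := by ring
      rw [h5]
      exact (norm_add_le _ _).trans (add_le_add (norm_sub_le _ _) le_rfl)
    have h6 : c * r ≤ 1 * r := mul_le_mul_of_nonneg_right hc3 hr0.le
    linarith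
  have lipd : ∀ s : ℝ, s ≤ 2 * (C / r * ‖x - p‖) → s * r / (2 * C) ≤ ‖x - p‖ := by
    intro s h3
    rw [div_le_iff₀ (by positivity)]
    have h4 := mul_le_mul_of_nonneg_right h3 hr0.le
    have h5 : 2 * (C / r * ‖x - p‖) * r = ‖x - p‖ * (2 * C) := by
      field_simp
    linarith
  rcases hS.um.va p hp with hup | hup
  · have htp : trc (1 / 2) 1 u p = 0 := by
      unfold trc
      rw [hup]
      norm_num
    rcases hw.va p hp with hwp | hwp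
    · have hwx : t ≤ w x := by linarith
      have hwx0 : 0 < w x := lt_of_lt_of_le ht hwx
      have htw : t ≤ 1 := ht1.le
      rcases lt_or_ge ‖a₀ - p‖ δ with h3 | h3
      · rcases lt_or_ge ‖ζ - p‖ δ with h4 | h4
        · have h5 := tc' h (ul_um hw) (a := 0) (b := t) le_rfl ht hL hl (z := p) (x := a₀) (y := x) hp (Or.inl hwp.le)
            (Or.inr hwx) (by rw [hwa]; exact htw) h3
          have h6 := tc' h (ul_um hw) (a := 0) (b := t) le_rfl ht hL hl (z := p) (x := ζ) (y := x) hp (Or.inl hwp.le)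
            (Or.inr hwx) (by rw [hwz]; exact htw) h4
          rw [sub_zero, ← he₁] at h5 h6
          exact fin e₁ h1 hc4 h5 h6
        · exact big ζ (by rw [sub_self, norm_zero]; positivity) h4 hwx0
      · exact big a₀ ha₀ζ h3 hwx0
    · rcases le_or_gt ((1 - t) / 2) (trc (1 / 2) 1 u x) with h3 | h3
      · have h4 := hlip x p
        rw [htp, sub_zero] at h4
        have h5 := lipd ((1 - t) / 2) (h3.trans ((le_abs_self _).trans h4))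
        refine le_trans ?_ h5
        have h6 : c * r ≤ (1 - t) / (4 * C) * r := mul_le_mul_of_nonneg_right hc2 hr0.le
        refine h6.trans (le_of_eq ?_)
        field_simp
        ring
      · have hwx : w x ≤ 1 - (1 - t) / 2 := by linarith
        have hpζ : ‖p - ζ‖ < δ / 8 := hs p (by rw [hwp]; norm_num)
        have h4 : ‖a₀ - p‖ < δ := by
          have h5 : ‖a₀ - p‖ ≤ ‖a₀ - ζ‖ + ‖p - ζ‖ := by
            have h6 : a₀ - p = (a₀ - ζ) - (p - ζ) := by ring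
            rw [h6]
            exact norm_sub_le _ _
          linarith
        have h5 : ‖ζ - p‖ < δ := by
          rw [norm_sub_rev]
          linarith
        have h6 := tc' h (ul_um hw) (a := 1 - (1 - t) / 2) (b := 1) (by linarith) (by linarith) hL hl (z := p) (x := a₀) (y := x)
          hp (Or.inr hwx) (Or.inl hwp.ge) hwa.ge h4
        have h7 := tc' h (ul_um hw) (a := 1 - (1 - t) / 2) (b := 1) (by linarith) (by linarith) hL hl (z := p) (x := ζ) (y := x)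
          hp (Or.inr hwx) (Or.inl hwp.ge) hwz.ge h5
        rw [sub_sub_cancel, ← he₂] at h6 h7
        exact fin e₂ h2 hc5 h6 h7
  · have htp : trc (1 / 2) 1 u p = 1 := by
      unfold trc
      rw [hup]
      norm_num
    have h3 := hlip x p
    rw [htp] at h3
    have h4 : t ≤ 2 * (C / r * ‖x - p‖) := by
      have h5 := (neg_le_abs _).trans h3
      have h6 := hw.hi x
      linarith
    refine le_trans ?_ (lipd t h4)
    have h6 : c * r ≤ t / (2 * C) * r := mul_le_mul_of_nonneg_right hc1 hr0.le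
    refine h6.trans (le_of_eq ?_)
    ring

theorem up_cut {L t : ℝ} (hL : 0 ≤ L) (ht : 0 < t) : ∃ A : ℝ, 1 ≤ A ∧
    ∀ {f : ℂ → ℂ} {N J P Cr : Set ℂ} {η : ℂ → ℂ → ℂ} {r₀ δ : ℝ} {ρ : ℂ → ENNReal} {v : ℂ} {u : ℂ → ℝ} {r C Λ ε : ℝ},
    WW f N J P Cr η r₀ δ ρ → Sc P ρ v u r C Λ ε → ∀ w : ℂ → ℝ, UM P w →
    ell ρ w ≤ ENNReal.ofReal L → ∀ a₀ p ζ : ℂ, (∀ y, 0 < w y → ‖y - ζ‖ < δ / 4) → a₀ ∈ P → u a₀ = 1 → w a₀ = 1 →
    p ∈ P → u p = 1 → w p = 0 → ∀ x, t ≤ w x → ‖x - v‖ ≤ A * r := by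
  obtain ⟨e, he⟩ : ∃ e, e = Real.exp (4 * (L / t)) := ⟨_, rfl⟩
  have he0 : 0 < e := by rw [he]; exact Real.exp_pos _
  refine ⟨2 * e + 1, by linarith, ?_⟩
  intro f N J P Cr η r₀ δ ρ v u r C Λ ε h hS w hw hl a₀ p ζ hs ha hua hwa hp hup hwp x hx
  have hδ := h.hδ
  have hx0 : ‖x - ζ‖ < δ / 4 := hs x (lt_of_lt_of_le ht hx)
  have ha0 : ‖a₀ - ζ‖ < δ / 4 := hs a₀ (by rw [hwa]; norm_num)
  have hxa : ‖x - a₀‖ < δ := by
    have h5 : ‖x - a₀‖ ≤ ‖x - ζ‖ + ‖a₀ - ζ‖ := by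
      have h6 : x - a₀ = (x - ζ) - (a₀ - ζ) := by ring
      rw [h6]
      exact norm_sub_le _ _
    linarith
  have h3 := tc' h (ul_um hw) (a := 0) (b := t) le_rfl ht hL hl (z := a₀) (x := x) (y := p) ha (Or.inr hwp.le)
    (Or.inl (by rw [hwa]; exact hx.trans (hw.hi x))) hx hxa
  rw [sub_zero, ← he] at h3
  have h4 := hS.cr.2 p hp hup
  have h5 := hS.cr.2 a₀ ha hua
  have h6 : ‖p - a₀‖ ≤ ‖p - v‖ + ‖a₀ - v‖ := by
    have h7 : p - a₀ = (p - v) - (a₀ - v) := by ring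
    rw [h7]
    exact norm_sub_le _ _
  have h8 : ‖x - v‖ ≤ ‖x - a₀‖ + ‖a₀ - v‖ := by
    have h9 : x - v = (x - a₀) + (a₀ - v) := by ring
    rw [h9]
    exact norm_add_le _ _
  nlinarith [mul_le_mul_of_nonneg_left (h6.trans (add_le_add h4 h5)) he0.le]

end Pool.Agent.H81.AC
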