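import Pool.Agent.H81.RW.Smd
import Pool.Agent.H81.AC.Siz
import Pool.Agent.H81.AC.Ee

/-!
# Module Smw: NEAR MINIMAL LIPSCHITZ FUNCTIONS in the setting `WW`

`smooth`. PROOF (`smo` of Smd.lean does the work). Constants: `Λ ≥ 1` (`lm_pos`), `L = Λ + 1`; `m = Λ - e₁`, `η`, `σ`, `τ`, `c` small / close to `1`, all depending on `ε`, `Λ`, `K` (from `WW.lg`). `ee` gives `κ₁` for `ε := e₁`: all unimodal functions at points of `P` of size `< κ₁` have length `≥ Λ - e₁`. `u₀` from `Lm.hi` with `e₁` and a size `κ₂` small against `κ₁`, `κ`, `δ`, `r₁`: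
`ell ρ u₀ ≤ Λ + e₁ ≤ (1 + τ) m`. Content radius `r > 0` (`cr_ex`), `r ≤ κ₂`. `V` = a disc `ball v (C₁ r)`? No: `{0 < u₀}` may be larger than that; first replace `u₀` by `trc η' (1 - η') u₀` (or use `V = ball v κ₃` in `smo`), and get the support of the result from `siz_up` applied to a further truncation: `u = trc (1/8) 1 u₂` has `{0 < u} ⊆ {1/8 ≤ u₂} ⊆ ball v (C r)`.
`hd`: `p ∈ P`: no point `x` of `ball p (c₁ r)` has `η ≤ u₀ x ≤ 1 - η` (`siz_far`, `c₁ = exp (-4 L / η) / 2`), the ball is connected, `u₀ p ∈ {0, 1}`: so `u₀ < η` or `> 1 - η` on the whole ball and `trc η (1 - η) u₀` is constant `= u₀ p`. `hrhos`: `fderiv (trc η (1 - η) u₀) x ≠ 0` implies `η < u₀ x < 1 - η` (`trc_fd`), so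
`ball x (c₁ r)` misses `P` (`siz_far`) and lies in `thickening δ J` (`x` near `v`): `WW.lg` with `d = c₁ r`, `‖y‖ < s = e₂ c₁ r`. `u₂` has the same content as `u₀` (`u₂ p = u₀ p`), so `CR P v u₂ r`; Lipschitz constant `6 / s`. `trc (1/8) 1 u₂`: same content, near minimal (`tnr` or `low_trc`-like), Lipschitz.
-/

set_option autoImplicit false

open Filter Topology Metric Set MeasureTheory

namespace Pool.Agent.H81.AC

open Pool.Agent.H81.RW

open Pool.Agent.H56.TH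

variable {f : ℂ → ℂ} {N J P Cr : Set ℂ} {η : ℂ → ℂ → ℂ} {r₀ δ : ℝ} {ρ : ℂ → ENNReal}

theorem smooth (h : WW f N J P Cr η r₀ δ ρ) {M r₁ : ℝ} (hr : RG P M r₁) {v : ℂ} (hvP : v ∈ P) {Λ : ℝ} (hΛ : Lm P ρ v Λ)
    {ε : ℝ} (hε : 0 < ε) :
    ∃ C : ℝ, 1 ≤ C ∧ ∀ κ : ℝ, 0 < κ → ∃ (u : ℂ → ℝ) (r : ℝ), 0 < r ∧ C * r < κ ∧ UM P u ∧ u v = 1 ∧
      (∀ x y, |u x - u y| ≤ C / r * ‖x - y‖) ∧ (∀ y, 0 < u y → ‖y - v‖ < C * r) ∧ CR P v u r ∧
      ell ρ u ≤ ENNReal.ofReal (Λ + ε) := by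
  have hΛ1 := lm_pos h hvP hΛ
  have hΛ0 : 0 < Λ := by linarith
  -- the small constant
  obtain ⟨ε', hε'0, hε'1, hε'ε⟩ : ∃ ε' : ℝ, 0 < ε' ∧ ε' ≤ 1 ∧ ε' ≤ ε := ⟨min ε 1, lt_min hε one_pos, min_le_right _ _, min_le_left _ _⟩
  obtain ⟨e₁, he₁0, he₁1, he₁Λ⟩ : ∃ e₁ : ℝ, 0 < e₁ ∧ e₁ ≤ 1 / 100 ∧ 100 * e₁ * Λ ≤ ε' := by
    refine ⟨ε' / (100 * Λ), by positivity, ?_, ?_⟩
    · rw [div_le_iff₀ (by positivity)]
      linarith
    · have h1 : 100 * (ε' / (100 * Λ)) * Λ = ε' := by field_simp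
      exact h1.le
  obtain ⟨K, hK1, hlg⟩ := h.lg
  have hK0 : 0 < K := by linarith
  obtain ⟨L, hL⟩ : ∃ L : ℝ, L = Λ + 1 := ⟨_, rfl⟩
  have hL0 : 0 ≤ L := by linarith
  obtain ⟨c₁, hc₁0, hc₁1, hc₁⟩ : ∃ c₁ : ℝ, 0 < c₁ ∧ c₁ ≤ 1 / 2 ∧ Real.exp (4 * (L / (1 / 4))) * c₁ = 1 / 2 := by
    refine ⟨1 / 2 * Real.exp (-(4 * (L / (1 / 4)))), by positivity, ?_, ?_⟩
    · have h1 : Real.exp (-(4 * (L / (1 / 4)))) ≤ 1 := Real.exp_le_one_iff.2 (by
        have : 0 ≤ 4 * (L / (1 / 4)) := by positivity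
        linarith)
      linarith
    · rw [mul_left_comm, ← Real.exp_add, add_neg_cancel, Real.exp_zero, mul_one]
  obtain ⟨e₂, he₂⟩ : ∃ e₂ : ℝ, e₂ = e₁ / K := ⟨_, rfl⟩
  have he₂0 : 0 < e₂ := by rw [he₂]; positivity
  have he₂1 : e₂ * K = e₁ := by rw [he₂]; field_simp
  have he₂2 : e₂ < 1 := by
    rw [he₂, div_lt_one hK0]
    linarith
  obtain ⟨C, hC⟩ : ∃ C : ℝ, C = 1 + Real.exp (4 * (L / (1 / 8))) * (2 * |M|) + 8 / (e₂ * c₁) := ⟨_, rfl⟩
  have hC1 : 0 ≤ Real.exp (4 * (L / (1 / 8))) * (2 * |M|) := by positivity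
  have hC2 : 0 < 8 / (e₂ * c₁) := by positivity
  have hC3 : 1 ≤ C := by linarith
  refine ⟨C, hC3, fun κ hκ => ?_⟩
  obtain ⟨κ₁, hκ₁, hee⟩ := ee h hΛ he₁0
  have hδ := h.hδ
  obtain ⟨κ₂, hκ₂, k1, k2, k3, k4⟩ : ∃ κ₂ : ℝ, 0 < κ₂ ∧ C * κ₂ ≤ κ ∧ 4 * κ₂ ≤ κ₁ ∧ 4 * κ₂ ≤ δ ∧ 2 * κ₂ ≤ r₁ := by
    refine ⟨min (min (κ / C) (κ₁ / 4)) (min (δ / 4) (r₁ / 2)), ?_, ?_, ?_, ?_, ?_⟩
    · have := hr.1
      refine lt_min (lt_min (by positivity) (by positivity)) (lt_min (by positivity) (by positivity))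
    · have h1 : min (min (κ / C) (κ₁ / 4)) (min (δ / 4) (r₁ / 2)) ≤ κ / C := (min_le_left _ _).trans (min_le_left _ _)
      calc C * _ ≤ C * (κ / C) := mul_le_mul_of_nonneg_left h1 (by linarith)
        _ = κ := mul_div_cancel₀ _ (by linarith)
    · have h1 : min (min (κ / C) (κ₁ / 4)) (min (δ / 4) (r₁ / 2)) ≤ κ₁ / 4 := (min_le_left _ _).trans (min_le_right _ _)
      linarith
    · have h1 : min (min (κ / C) (κ₁ / 4)) (min (δ / 4) (r₁ / 2)) ≤ δ / 4 := (min_le_right _ _).trans (min_le_left _ _)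
      linarith
    · have h1 : min (min (κ / C) (κ₁ / 4)) (min (δ / 4) (r₁ / 2)) ≤ r₁ / 2 := (min_le_right _ _).trans (min_le_right _ _)
      linarith
  obtain ⟨u₀, hu₀, hu₀v, hsz, hell⟩ := hΛ.hi e₁ κ₂ he₁0 hκ₂
  obtain ⟨r, hr0, hcr⟩ := cr_ex h hvP hr hu₀ hu₀v
  have hrκ : r < κ₂ := by
    obtain ⟨⟨y₀, -, hy1, hyr⟩, -⟩ := hcr
    rw [← hyr]
    exact hsz y₀ (by rw [hy1]; exact one_pos)
  obtain ⟨K₀, hK₀⟩ := hu₀.lip
  have hu₀c : Continuous u₀ := hK₀.continuous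
  obtain ⟨d, hd⟩ : ∃ d : ℝ, d = c₁ * r := ⟨_, rfl⟩
  have hd0 : 0 < d := by rw [hd]; positivity
  have hdκ : d ≤ κ₂ / 2 := by
    rw [hd]
    nlinarith
  obtain ⟨s, hs⟩ : ∃ s : ℝ, s = e₂ * d := ⟨_, rfl⟩
  have hs0 : 0 < s := by rw [hs]; positivity
  have hsd : s < d := by rw [hs]; nlinarith
  -- the middle levels are far from `P`
  have hfar : ∀ x : ℂ, 1 / 4 ≤ u₀ x → u₀ x ≤ 1 - 1 / 4 → ∀ p ∈ P, d ≤ ‖x - p‖ := by
    intro x hx1 hx2 p hp
    have h1 := siz_far h hL0 hu₀ hu₀v (fun y hy => (hsz y hy).trans_le (by linarith))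
      (hell.trans (ENNReal.ofReal_le_ofReal (by linarith))) hr0 hcr (β := 1 / 4) (by norm_num) hx1 hx2 hp
    have h2 : 0 < Real.exp (4 * (L / (1 / 4))) := Real.exp_pos _
    have h3 : Real.exp (4 * (L / (1 / 4))) * d = r / 2 := by
      rw [hd, ← mul_assoc, hc₁]
      ring
    rw [← h3] at h1
    exact le_of_mul_le_mul_left h1 h2
  obtain ⟨m, hm⟩ : ∃ m : ℝ, m = Λ - e₁ := ⟨_, rfl⟩
  have hm0 : 0 < m := by linarith
  have hm1 : 1 / 2 ≤ m := by linarith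
  have hlow : ∀ x ∈ P, ∀ w : ℂ → ℝ, UM P w → w x = 1 → (∀ y, 0 < w y → y ∈ ball v (2 * κ₂)) →
      ENNReal.ofReal m ≤ ell ρ w := by
    intro x hx w hw hwx hwV
    rw [hm]
    refine hee x hx w hw hwx fun y hy => ?_
    have h1 := hwV y hy
    have h2 := hwV x (by rw [hwx]; exact one_pos)
    rw [mem_ball, dist_eq_norm] at h1 h2
    have h3 : ‖y - x‖ ≤ ‖y - v‖ + ‖x - v‖ := by
      calc ‖y - x‖ = ‖(y - v) - (x - v)‖ := by rw [sub_sub_sub_cancel_right]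
        _ ≤ _ := norm_sub_le _ _
    linarith
  have hc0 : (1 : ℝ) ≤ 1 + e₁ := by linarith
  have hcσ : (1 + e₁) * (1 + 2 * (4 * e₁)) ≤ 1 + 17 * e₁ := by nlinarith
  obtain ⟨u₂, g1, g2, g3, g4, g5, g6⟩ := smo (P := P) (V := ball v (2 * κ₂)) (ρ := ρ) (m := m) h.me h.Pc (full_ball v (2 * κ₂)) hm0 hlow hvP hu₀ hu₀v
    (η := 1 / 4) (σ := 1 / 4) (τ := 4 * e₁) (c := 1 + e₁) (s := s) (d := d)
    (by norm_num) le_rfl (by norm_num) le_rfl (by positivity) hc0 (by linarith) hs0 hsd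
    (fun y z hy hz => by
      rw [mem_ball, dist_eq_norm]
      have h1 := hsz y hy
      calc ‖y + z - v‖ = ‖(y - v) + z‖ := by congr 1; ring
        _ ≤ ‖y - v‖ + ‖z‖ := norm_add_le _ _
        _ < 2 * κ₂ := by linarith)
    (hell.trans (ENNReal.ofReal_le_ofReal (by rw [hm]; nlinarith)))
    (fun p hp y hy => by
      have hcv : IsPreconnected (ball p d) := (convex_ball p d).isPreconnected
      have hpb : p ∈ ball p d := mem_ball_self hd0
      rcases hu₀.va p hp with h0 | h0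
      · rw [h0]
        refine trc_zero (by norm_num) ?_
        by_contra hcon
        rw [not_le] at hcon
        obtain ⟨x, hx, hx1⟩ := hcv.intermediate_value hpb hy hu₀c.continuousOn
          (show (1 / 4 : ℝ) ∈ Icc (u₀ p) (u₀ y) from ⟨by rw [h0]; norm_num, hcon.le⟩)
        have h2 := hfar x hx1.ge (by rw [hx1]; norm_num) p hp
        rw [mem_ball, dist_eq_norm] at hx
        linarith
      · rw [h0]
        refine trc_one (by norm_num) ?_
        by_contra hcon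
        rw [not_le] at hcon
        obtain ⟨x, hx, hx1⟩ := hcv.intermediate_value hy hpb hu₀c.continuousOn
          (show (1 - 1 / 4 : ℝ) ∈ Icc (u₀ y) (u₀ p) from ⟨hcon.le, by rw [h0]; norm_num⟩)
        have h2 := hfar x (by rw [hx1]; norm_num) hx1.le p hp
        rw [mem_ball, dist_eq_norm] at hx
        linarith)
    (fun x y hx hy => by
      have h1 : 1 / 4 < u₀ x ∧ u₀ x < 1 - 1 / 4 := by
        by_contra hcon
        exact hx ((trc_fd hu₀c (by norm_num) x).2 hcon)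
      have h2 := hfar x h1.1.le h1.2.le
      have h3 : ball x d ⊆ thickening δ P := by
        intro z hz
        rw [mem_ball, dist_eq_norm] at hz
        refine mem_thickening_iff.2 ⟨v, hvP, ?_⟩
        rw [dist_eq_norm]
        have h4 := hsz x (by linarith)
        calc ‖z - v‖ = ‖(z - x) + (x - v)‖ := by congr 1; ring
          _ ≤ ‖z - x‖ + ‖x - v‖ := norm_add_le _ _
          _ < δ := by linarith
      have h4 : Disjoint (ball x d) P := by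
        rw [Set.disjoint_left]
        intro p hp hpP
        have h5 := h2 p hpP
        rw [mem_ball, dist_eq_norm, norm_sub_rev] at hp
        linarith
      have h5 : K * ‖y‖ ≤ e₁ * d := by
        calc K * ‖y‖ ≤ K * s := mul_le_mul_of_nonneg_left hy.le hK0.le
          _ = e₁ * d := by rw [hs, ← he₂1]; ring
      have h6 := hlg x (x + y) d hd0 h3 h4 (by
        rw [add_sub_cancel_left, le_div_iff₀ hK0]
        nlinarith)
      rw [add_sub_cancel_left] at h6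
      refine h6.trans (mul_le_mul_left (ENNReal.ofReal_le_ofReal ?_) _)
      have h7 : K * ‖y‖ / d ≤ e₁ := by
        rw [div_le_iff₀ hd0]
        exact h5
      linarith)
  -- the size of the middle levels of `u₂`
  have hcr2 : CR P v u₂ r := by
    obtain ⟨⟨y₀, hy₀, hy1, hyr⟩, h2⟩ := hcr
    exact ⟨⟨y₀, hy₀, by rw [g3 y₀ hy₀, hy1], hyr⟩, fun y hy hy1 => h2 y hy (by rw [← g3 y hy, hy1])⟩
  have hell2 : ell ρ u₂ ≤ ENNReal.ofReal ((1 + 34 * e₁) * m) :=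
    g6.trans (ENNReal.ofReal_le_ofReal (mul_le_mul_of_nonneg_right (by linarith) hm0.le))
  have hellf : (1 + 68 * e₁) * m ≤ Λ + ε' := by
    rw [hm]
    nlinarith
  have hup : ∀ x : ℂ, 1 / 8 ≤ u₂ x → ‖x - v‖ ≤ Real.exp (4 * (L / (1 / 8))) * (2 * M * r) := by
    intro x hx
    refine siz_up h hvP hr hL0 g1 g2 (fun y hy => ?_) (hell2.trans (ENNReal.ofReal_le_ofReal ?_)) hr0 (by linarith) hcr2
      (by norm_num) hx
    · have h1 := g5 y hy
      rw [mem_ball, dist_eq_norm] at h1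
      linarith
    · nlinarith
  have hlev : (1 / 8 : ℝ) < 1 - 1 / 8 := by norm_num
  have hval : ∀ p ∈ P, trc (1 / 8) (1 - 1 / 8) u₂ p = u₀ p := by
    intro p hp
    rcases hu₀.va p hp with h1 | h1
    · rw [h1]
      exact trc_zero hlev (by rw [g3 p hp, h1]; norm_num)
    · rw [h1]
      exact trc_one hlev (by rw [g3 p hp, h1]; norm_num)
  refine ⟨trc (1 / 8) (1 - 1 / 8) u₂, r, hr0, ?_, ?_, ?_, ?_, ?_, ?_, ?_⟩
  · calc C * r < C * κ₂ := mul_lt_mul_of_pos_left hrκ (by linarith)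
      _ ≤ κ := k1
  · refine um_trc (ul_um g1) (by norm_num) hlev fun p hp => ?_
    rcases hu₀.va p hp with h1 | h1
    · left
      rw [g3 p hp, h1]
      norm_num
    · right
      rw [g3 p hp, h1]
      norm_num
  · rw [hval v hvP, hu₀v]
  · intro x y
    have h1 := (trc_lip g4 hlev).dist_le_mul x y
    rw [Real.dist_eq, dist_eq_norm] at h1
    refine h1.trans (mul_le_mul_of_nonneg_right ?_ (norm_nonneg _))
    rw [NNReal.coe_mul, Real.coe_toNNReal _ (by positivity), Real.coe_toNNReal _ (by norm_num)]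
    have h2 : 6 / s * (1 - 1 / 8 - 1 / 8)⁻¹ = 8 / (e₂ * c₁) / r := by
      rw [hs, hd]
      field_simp
      norm_num
    rw [h2]
    exact div_le_div_of_nonneg_right (by linarith) hr0.le
  · intro y hy
    have h1 := hup y (trc_pos' hlev hy).le
    refine h1.trans_lt ?_
    have h2 : Real.exp (4 * (L / (1 / 8))) * (2 * M * r) ≤ Real.exp (4 * (L / (1 / 8))) * (2 * |M|) * r := by
      have h3 : 2 * M * r ≤ 2 * |M| * r := mul_le_mul_of_nonneg_right (by linarith [le_abs_self M]) hr0.le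
      calc _ ≤ Real.exp (4 * (L / (1 / 8))) * (2 * |M| * r) := mul_le_mul_of_nonneg_left h3 (Real.exp_pos _).le
        _ = _ := by ring
    refine h2.trans_lt (mul_lt_mul_of_pos_right ?_ hr0)
    linarith
  · obtain ⟨⟨y₀, hy₀, hy1, hyr⟩, h2⟩ := hcr
    exact ⟨⟨y₀, hy₀, by rw [hval y₀ hy₀, hy1], hyr⟩, fun y hy hy1 => h2 y hy (by rw [← hval y hy, hy1])⟩
  · refine (low_trc h.Pc hm0.le (hlow v hvP) (ul_um g1) g2 g5 (η := 1 / 8) (by norm_num) (by norm_num) (τ := 34 * e₁)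
      (by positivity) hell2).trans (ENNReal.ofReal_le_ofReal ?_)
    have h1 : 1 + 2 * (34 * e₁) = 1 + 68 * e₁ := by ring
    rw [h1]
    linarith

end Pool.Agent.H81.AC
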