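import Pool.Agent.H81.AC.Adv

/-!
# Module Sta0 (LW): THE START OF THE CUT PROCESS (see `Mnp`)

`w = trc 0 (1 / 4) u` (`lo_um`: length `≤ Λ + 8 ε ≤ Λ + 1`), `w (f c) = 1`, `w (f (z_n)) = 1`. `κ₀ = κ'` from `crs` for `κ`, centre `f c`. `crs` with `a := c`, `x := z_n`.
`O₁ = {1 / 2 < u}`: open, preconnected, full, bounded, `w = 1` on `O₁`; `po_zero`, `po_cr`. `Ac (frontier O₁)`: `wka`, `u = 1 / 2` on the frontier, Lipschitz bound.
-/

set_option autoImplicit false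

open Filter Topology Metric Set MeasureTheory

namespace Pool.Agent.H81.AC

open Pool.Agent.H81.RW

open Pool.Agent.H56.TH

variable {f : ℂ → ℂ} {N J P Cr : Set ℂ} {η : ℂ → ℂ → ℂ} {r₀ δ : ℝ} {ρ : ℂ → ENNReal}

theorem sta0 (h : WW f N J P Cr η r₀ δ ρ) {c : ℂ} (hc : c ∈ Cr) {Λ : ℝ} (hΛ : 1 ≤ Λ) {κ : ℝ} (hκ : 0 < κ) :
    ∃ κ₀ : ℝ, 0 < κ₀ ∧ ∀ (u : ℂ → ℝ) (r C ε A c₃ : ℝ), 0 < ε → ε ≤ 1 / 8 → Sc P ρ (f c) u r C Λ ε → C * r < κ₀ → C ≤ A →
      0 < c₃ → c₃ ≤ 1 / (2 * C) → ∀ (z : ℂ) (n : ℕ), Fst f (η c '' ball 0 r₀) u z n →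
      ∃ w : ℂ → ℝ, Sta f N Cr P (η c '' ball 0 r₀) ρ (f c) u r A c₃ z n n 0 κ (2 * (Λ + 1)) 1 w := by
  obtain ⟨κ', hκ', hcrs⟩ := crs h hκ
  refine ⟨κ', hκ', fun u r C ε A c₃ hε hε8 hS hCr hCA hc₃ hc₃C z n hF => ?_⟩
  obtain ⟨hwu, hwl⟩ := lo_um hS hε hΛ
  obtain ⟨w, hw⟩ : ∃ w : ℂ → ℝ, w = trc 0 (1 / 4) u := ⟨_, rfl⟩
  rw [← hw] at hwu hwl
  have h14 : (0 : ℝ) < 1 / 4 := by norm_num
  have hr := hS.r0
  have hC1 := hS.C1
  have hCp : 0 < C := by linarith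
  have hw1 : ∀ y, 1 / 4 ≤ u y → w y = 1 := fun y hy => by
    rw [hw]
    exact trc_one h14 hy
  have hw0 : ∀ y, 0 < w y → 0 < u y := fun y hy => by
    by_contra hcon
    rw [hw, trc_zero h14 (not_lt.1 hcon)] at hy
    exact lt_irrefl _ hy
  have huc : Continuous u := by
    obtain ⟨K, hK⟩ := hS.um.lip
    exact hK.continuous
  obtain ⟨x, hx⟩ : ∃ x : ℂ, x = f^[n] z := ⟨_, rfl⟩
  have hxE : x ∈ η c '' ball 0 r₀ := by
    rw [hx]
    exact hF.1.1
  have hux : 1 / 2 < u (f x) := by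
    have h1 := hF.1.2
    rw [Function.iterate_succ_apply', ← hx] at h1
    exact h1
  have hfcw : w (f c) = 1 := hw1 _ (by rw [hS.uv]; norm_num)
  have hfxw : w (f x) = 1 := hw1 _ (by linarith)
  obtain ⟨hts, w₁, hw₁u, hw₁v, hw₁s, hw₁l⟩ := hcrs c hc w (f c) x hwu
    (fun y hy => (hS.sp y (hw0 y hy)).trans hCr) hfcw hxE hfxw
  -- the domain
  obtain ⟨O₁, hO₁⟩ : ∃ O₁ : Set ℂ, O₁ = {y | 1 / 2 < u y} := ⟨_, rfl⟩
  have hOo : IsOpen O₁ := by
    rw [hO₁]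
    exact isOpen_lt continuous_const huc
  have hOc : IsPreconnected O₁ := by
    rw [hO₁]
    exact hS.um.co _ (by norm_num) (by norm_num)
  have hOf : Full O₁ := by
    rw [hO₁]
    exact hS.um.fu _ (by norm_num) (by norm_num)
  have hOA : O₁ ⊆ closedBall (f c) (A * r) := by
    intro y hy
    rw [hO₁] at hy
    have h1 : 1 / 2 < u y := hy
    rw [mem_closedBall, dist_eq_norm]
    have h2 := hS.sp y (by linarith)
    have h3 := mul_le_mul_of_nonneg_right hCA hr.le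
    linarith
  have hOb : Bornology.IsBounded O₁ := isBounded_closedBall.subset hOA
  have hOw : ∀ y ∈ O₁, w y = 1 := by
    intro y hy
    rw [hO₁] at hy
    have h1 : 1 / 2 < u y := hy
    exact hw1 y (by linarith)
  have hvO : f c ∈ O₁ := by
    rw [hO₁]
    show 1 / 2 < u (f c)
    rw [hS.uv]
    norm_num
  have hfxO : f x ∈ O₁ := by
    rw [hO₁]
    exact hux
  have hfru : ∀ y ∈ frontier O₁, u y = 1 / 2 := by
    intro y hy
    rw [hOo.frontier_eq] at hy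
    have h1 : closure O₁ ⊆ {y | 1 / 2 ≤ u y} := by
      refine closure_minimal (fun y hy => ?_) (isClosed_le continuous_const huc)
      rw [hO₁] at hy
      have h1 : 1 / 2 < u y := hy
      exact h1.le
    have h2 : 1 / 2 ≤ u y := h1 hy.1
    have h3 : ¬ 1 / 2 < u y := fun h => hy.2 (by rw [hO₁]; exact h)
    linarith [not_lt.1 h3]
  obtain ⟨O', hPO, hxO', hO'⟩ := pq_cr h hc hwu hts (pq_zero (f := f) (N := N) (Cr := Cr) hOo hOc hOf hOb) hOw hxE hfxO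
  have hAc : Ac P (f c) r A c₃ (frontier O₁) := by
    refine ⟨?_, ?_⟩
    · exact frontier_subset_closure.trans (closure_minimal hOA isClosed_closedBall)
    · intro y hy p hp
      have h1 := hfru y hy
      have h2 : 1 / 2 ≤ |u y - u p| := by
        rw [h1]
        rcases hS.um.va p hp with h3 | h3
        · rw [h3, sub_zero, abs_of_pos (by norm_num)]
        · rw [h3, abs_of_neg (by norm_num)]
          norm_num
      have h3 := h2.trans (hS.lip y p)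
      have h4 : c₃ * r ≤ 1 / (2 * C) * r := mul_le_mul_of_nonneg_right hc₃C hr.le
      refine h4.trans ?_
      have h5 : 1 / (2 * C) * r = (1 / 2) * (r / C) := by
        field_simp
      rw [h5]
      have h6 : C / r * ‖y - p‖ * (r / C) = ‖y - p‖ := by
        field_simp
      calc 1 / 2 * (r / C) ≤ C / r * ‖y - p‖ * (r / C) := mul_le_mul_of_nonneg_right h3 (by positivity)
        _ = ‖y - p‖ := h6
  refine ⟨w₁, ⟨le_rfl, hw₁u, ?_, ?_, ?_, ?_, Or.inl (Nat.zero_le _), ?_⟩⟩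
  · rw [← hx, hw₁v x hxE, hfxw]
  · intro y hy
    rw [← hx]
    exact (hw₁s y hy).2
  · refine hw₁l.trans ?_
    have h1 : ENNReal.ofReal (2 * (Λ + 1)) = 2 * ENNReal.ofReal (Λ + 1) := by
      rw [ENNReal.ofReal_mul (by norm_num), ENNReal.ofReal_ofNat]
    rw [h1]
    gcongr
    exact hwl.trans (ENNReal.ofReal_le_ofReal (by linarith))
  · intro p hp hp1
    have h1 : 0 < w₁ p := by rw [hp1]; exact one_pos
    have hpE := (hw₁s p h1).1
    have h2 : w (f p) = 1 := by rw [← hw₁v p hpE, hp1]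
    have h3 : 0 < u (f p) := hw0 _ (by rw [h2]; exact one_pos)
    have h4 : u (f p) = 1 := by
      rcases hS.um.va _ (h.Pf p hp) with h5 | h5
      · rw [h5] at h3
        exact absurd h3 (lt_irrefl _)
      · exact h5
    rw [Nat.sub_self]
    exact ⟨⟨hpE, h4⟩, fun j hj => absurd hj (Nat.not_lt_zero j)⟩
  · refine ⟨O', O₁, n + 1, Nat.le_succ n, Nat.succ_pos n, le_rfl, ?_, ?_, ?_, hOA, hAc⟩
    · have e1 : n + 1 - n = 0 + 1 := by omega
      rw [e1]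
      exact hPO
    · rw [← hx]
      exact hxO'
    · intro y hy
      obtain ⟨hyE, hyO⟩ := hO' hy
      rw [hw₁v y hyE]
      exact hOw _ hyO

end Pool.Agent.H81.AC
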